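import Mathlib

set_option autoImplicit false

/-!
Abstract integration lemma (Theorem U) used in the construction of an invariant random
partition of `SL₃(ℤ)`.
-/

namespace Pool.Agent.N659.IRP

open Function

theorem third : ∀ a b : Fin 3, ∃ l : Fin 3, l ≠ a ∧ l ≠ b := by decide

theorem two_others : ∀ j : Fin 3, ∃ i l : Fin 3, i ≠ j ∧ l ≠ j ∧ i ≠ l := by decide

/-- Abstract data: a group with six elements `x i j` satisfying the Steinberg-type relations,
together with unit and free predicates. -/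
structure Setup (G : Type*) [Group G] where
  x : Fin 3 → Fin 3 → G
  row : ∀ i j l, i ≠ j → i ≠ l → j ≠ l → x i j * x i l = x i l * x i j
  col : ∀ i j l, i ≠ j → l ≠ j → i ≠ l → x i j * x l j = x l j * x i j
  pent : ∀ i j l, i ≠ j → j ≠ l → i ≠ l → x i j * x j l = x j l * x i j * x i l
  unit : Fin 3 → G → Prop
  free : Fin 3 → G → Prop
  unit_exists : ∀ g, ∃ j, unit j g
  unit_move : ∀ i j m g, i ≠ j → m ≠ i → (unit m (g * x i j) ↔ unit m g)
  unit_gain : ∀ i j g, i ≠ j → ¬ unit i g → unit j g → unit i (g * x i j)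
  unit_keep : ∀ i j g, i ≠ j → unit i g → ¬ unit j g → unit i (g * x i j)
  free_move : ∀ m a g, m ≠ a → (free m (g * x m a) ↔ free m g)
  ex : ∀ i j l g, i ≠ j → j ≠ l → i ≠ l → unit j g →
    ∃ s : ℤ, free l (g * x i j ^ s) ∧ free j (g * x i j ^ s)

namespace Setup

variable {G : Type*} [Group G] (D : Setup G)

/-- good vertices of type `m` -/
def good (m : Fin 3) (g : G) : Prop := D.free m g ∧ ∃ a, a ≠ m ∧ D.unit a g

/-- the set of all good vertices -/
def Z : Set G := {g | ∃ m, D.good m g}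

theorem unit_move_zpow (i j m : Fin 3) (g : G) (hij : i ≠ j) (hm : m ≠ i) (s : ℤ) :
    D.unit m (g * D.x i j ^ s) ↔ D.unit m g := by
  induction s using Int.induction_on with
  | zero => simp
  | succ n ih =>
    rw [zpow_add_one, ← mul_assoc, D.unit_move i j m _ hij hm, ih]
  | pred n ih =>
    rw [← ih, zpow_sub_one, ← mul_assoc,
      ← D.unit_move i j m (g * D.x i j ^ (-(n : ℤ)) * (D.x i j)⁻¹) hij hm]
    simp

theorem free_move_zpow (m a : Fin 3) (g : G) (hma : m ≠ a) (s : ℤ) :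
    D.free m (g * D.x m a ^ s) ↔ D.free m g := by
  induction s using Int.induction_on with
  | zero => simp
  | succ n ih =>
    rw [zpow_add_one, ← mul_assoc, D.free_move m a _ hma, ih]
  | pred n ih =>
    rw [← ih, zpow_sub_one, ← mul_assoc,
      ← D.free_move m a (g * D.x m a ^ (-(n : ℤ)) * (D.x m a)⁻¹) hma]
    simp

theorem good_move (m a : Fin 3) (g : G) (hma : m ≠ a) :
    D.good m (g * D.x m a) ↔ D.good m g := by
  unfold good
  rw [D.free_move m a g hma]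
  constructor
  · rintro ⟨h, b, hb, hu⟩
    exact ⟨h, b, hb, (D.unit_move m a b g hma hb).1 hu⟩
  · rintro ⟨h, b, hb, hu⟩
    exact ⟨h, b, hb, (D.unit_move m a b g hma hb).2 hu⟩

theorem good_move_zpow (m a : Fin 3) (g : G) (hma : m ≠ a) (s : ℤ) :
    D.good m (g * D.x m a ^ s) ↔ D.good m g := by
  unfold good
  rw [D.free_move_zpow m a g hma]
  constructor
  · rintro ⟨h, b, hb, hu⟩
    exact ⟨h, b, hb, (D.unit_move_zpow m a b g hma hb s).1 hu⟩
  · rintro ⟨h, b, hb, hu⟩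
    exact ⟨h, b, hb, (D.unit_move_zpow m a b g hma hb s).2 hu⟩

/-- Cochains `f` satisfying the cocycle relations and `φ` a primitive on `Z`. -/
structure Cocycle (A : Type*) [AddCommGroup A] where
  f : Fin 3 → Fin 3 → G → A
  φ : G → A
  frow : ∀ i j l g, i ≠ j → i ≠ l → j ≠ l →
    f i j g + f i l (g * D.x i j) = f i l g + f i j (g * D.x i l)
  fcol : ∀ i j l g, i ≠ j → l ≠ j → i ≠ l →
    f i j g + f l j (g * D.x i j) = f l j g + f i j (g * D.x l j)
  fpent : ∀ i j l g, i ≠ j → j ≠ l → i ≠ l →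
    f i j g + f j l (g * D.x i j) =
      f j l g + f i j (g * D.x j l) + f i l (g * D.x j l * D.x i j)
  fφ : ∀ i j g, i ≠ j → g ∈ D.Z → g * D.x i j ∈ D.Z → φ (g * D.x i j) = φ g + f i j g

namespace Cocycle

variable {D} {A : Type*} [AddCommGroup A] (c : D.Cocycle A)

/-- lifted moves -/
def E (i j : Fin 3) : Equiv.Perm (G × A) where
  toFun p := (p.1 * D.x i j, p.2 + c.f i j p.1)
  invFun p := (p.1 * (D.x i j)⁻¹, p.2 - c.f i j (p.1 * (D.x i j)⁻¹))
  left_inv p := by simp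
  right_inv p := by simp

@[simp] theorem E_fst (i j : Fin 3) (p : G × A) : (c.E i j p).1 = p.1 * D.x i j := rfl

theorem E_snd (i j : Fin 3) (p : G × A) : (c.E i j p).2 = p.2 + c.f i j p.1 := rfl

theorem Ezpow_fst (i j : Fin 3) (s : ℤ) (p : G × A) :
    ((c.E i j ^ s) p).1 = p.1 * D.x i j ^ s := by
  induction s using Int.induction_on with
  | zero => simp
  | succ n ih =>
    rw [add_comm, zpow_add, zpow_one, Equiv.Perm.mul_apply, E_fst, ih, mul_assoc, ← zpow_add_one,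
      add_comm]
  | pred n ih =>
    have h1 : (c.E i j ^ (-(n : ℤ))) p = c.E i j ((c.E i j ^ (-(n : ℤ) - 1)) p) := by
      rw [← Equiv.Perm.mul_apply, ← zpow_one_add]
      congr 2
      ring
    have h2 := congrArg Prod.fst h1
    rw [ih, E_fst] at h2
    have h3 : p.1 * D.x i j ^ (-(n : ℤ) - 1) = p.1 * D.x i j ^ (-(n : ℤ)) * (D.x i j)⁻¹ := by
      rw [zpow_sub_one, mul_assoc]
    rw [h3, h2]
    simp

/-- difference of the second coordinates is preserved by the lifted moves -/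
theorem Ezpow_snd_sub (i j : Fin 3) (s : ℤ) (g : G) (a b : A) :
    ((c.E i j ^ s) (g, a)).2 - ((c.E i j ^ s) (g, b)).2 = a - b := by
  induction s using Int.induction_on with
  | zero => simp
  | succ n ih =>
    have e1 : ∀ p : G × A, (c.E i j ^ ((n : ℤ) + 1)) p = c.E i j ((c.E i j ^ (n : ℤ)) p) := by
      intro p
      rw [add_comm, zpow_add, zpow_one, Equiv.Perm.mul_apply]
    rw [e1, e1, E_snd, E_snd, Ezpow_fst, Ezpow_fst]
    simpa using ih
  | pred n ih =>
    have e1 : ∀ p : G × A, (c.E i j ^ (-(n : ℤ))) p = c.E i j ((c.E i j ^ (-(n : ℤ) - 1)) p) := by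
      intro p
      rw [← Equiv.Perm.mul_apply, ← zpow_one_add]
      congr 2
      ring
    rw [e1, e1, E_snd, E_snd, Ezpow_fst, Ezpow_fst] at ih
    simpa using ih

theorem Erow (i j l : Fin 3) (hij : i ≠ j) (hil : i ≠ l) (hjl : j ≠ l) :
    Commute (c.E i j) (c.E i l) := by
  refine Equiv.ext fun p => ?_
  simp only [Equiv.Perm.mul_apply]
  refine Prod.ext ?_ ?_
  · simp only [E_fst, mul_assoc]
    rw [D.row i j l hij hil hjl]
  · simp only [E_snd, E_fst]
    have := c.frow i j l p.1 hij hil hjl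
    rw [add_assoc, add_assoc, ← this]

theorem Ecol (i j l : Fin 3) (hij : i ≠ j) (hlj : l ≠ j) (hil : i ≠ l) :
    Commute (c.E i j) (c.E l j) := by
  refine Equiv.ext fun p => ?_
  simp only [Equiv.Perm.mul_apply]
  refine Prod.ext ?_ ?_
  · simp only [E_fst, mul_assoc]
    rw [D.col i j l hij hlj hil]
  · simp only [E_snd, E_fst]
    have := c.fcol i j l p.1 hij hlj hil
    rw [add_assoc, add_assoc, ← this]

theorem Epent (i j l : Fin 3) (hij : i ≠ j) (hjl : j ≠ l) (hil : i ≠ l) :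
    c.E j l * c.E i j = c.E i l * c.E i j * c.E j l := by
  refine Equiv.ext fun p => ?_
  simp only [Equiv.Perm.mul_apply]
  refine Prod.ext ?_ ?_
  · simp only [E_fst, mul_assoc]
    rw [D.pent i j l hij hjl hil, mul_assoc]
  · simp only [E_snd, E_fst]
    have := c.fpent i j l p.1 hij hjl hil
    rw [add_assoc, this]
    simp only [add_assoc]

theorem Epent_zpow (i j l : Fin 3) (hij : i ≠ j) (hjl : j ≠ l) (hil : i ≠ l) (r : ℤ) :
    c.E l j ^ r * c.E i l = c.E i j ^ r * c.E i l * c.E l j ^ r := by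
  have h1 : c.E l j * c.E i l = c.E i j * c.E i l * c.E l j :=
    c.Epent i l j hil hjl.symm hij
  have hcol : Commute (c.E i j) (c.E l j) := c.Ecol i j l hij hjl.symm hil
  have hrow : Commute (c.E i j) (c.E i l) := c.Erow i j l hij hil hjl
  have hs : SemiconjBy (c.E i l) (c.E l j) ((c.E i j)⁻¹ * c.E l j) := by
    unfold SemiconjBy
    rw [mul_assoc, h1]
    simp [mul_assoc]
  have hs' := hs.zpow_right r
  have hc : Commute ((c.E i j)⁻¹) (c.E l j) := hcol.inv_left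
  rw [hc.mul_zpow] at hs'
  unfold SemiconjBy at hs'
  have h3 : c.E i l * c.E l j ^ r = (c.E i j ^ r)⁻¹ * (c.E l j ^ r * c.E i l) := by
    rw [hs']
    simp [mul_assoc]
  rw [mul_assoc, h3]
  simp

/-- graph of `φ` over the good vertices of type `m` -/
def Φ (m : Fin 3) : Set (G × A) := {p | D.good m p.1 ∧ p.2 = c.φ p.1}

theorem Φ_move (m a : Fin 3) (hma : m ≠ a) (p : G × A) :
    c.E m a p ∈ c.Φ m ↔ p ∈ c.Φ m := by
  unfold Φ
  simp only [Set.mem_ofPred_eq, E_fst, E_snd]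
  rw [D.good_move m a p.1 hma]
  constructor
  · rintro ⟨h1, h2⟩
    refine ⟨h1, ?_⟩
    have hz : p.1 ∈ D.Z := ⟨m, h1⟩
    have hz' : p.1 * D.x m a ∈ D.Z := ⟨m, (D.good_move m a p.1 hma).2 h1⟩
    rw [c.fφ m a p.1 hma hz hz'] at h2
    exact add_right_cancel h2
  · rintro ⟨h1, h2⟩
    refine ⟨h1, ?_⟩
    have hz : p.1 ∈ D.Z := ⟨m, h1⟩
    have hz' : p.1 * D.x m a ∈ D.Z := ⟨m, (D.good_move m a p.1 hma).2 h1⟩
    rw [c.fφ m a p.1 hma hz hz', h2]

theorem Φ_move_zpow (m a : Fin 3) (hma : m ≠ a) (s : ℤ) (p : G × A) :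
    (c.E m a ^ s) p ∈ c.Φ m ↔ p ∈ c.Φ m := by
  induction s using Int.induction_on with
  | zero => simp
  | succ n ih =>
    rw [add_comm, zpow_add, zpow_one, Equiv.Perm.mul_apply, c.Φ_move m a hma, ih]
  | pred n ih =>
    rw [← ih, ← c.Φ_move m a hma ((c.E m a ^ (-(n : ℤ) - 1)) p), ← Equiv.Perm.mul_apply,
      ← zpow_one_add]
    ring_nf

/-- pivot predicate -/
def R (j : Fin 3) (p : G × A) : Prop :=
  ∀ i l, i ≠ j → l ≠ j → i ≠ l → ∃ s : ℤ, (c.E i j ^ s) p ∈ c.Φ l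

theorem A1 (i j l : Fin 3) (hij : i ≠ j) (hlj : l ≠ j) (hil : i ≠ l) (p : G × A)
    (h : ∃ s : ℤ, (c.E i j ^ s) p ∈ c.Φ l) (r : ℤ) (hr : D.good i (p.1 * D.x l j ^ r)) :
    (c.E l j ^ r) p ∈ c.Φ i := by
  obtain ⟨s, hs⟩ := h
  have h1 : (c.E l j ^ r) ((c.E i j ^ s) p) ∈ c.Φ l := (c.Φ_move_zpow l j hlj r _).2 hs
  have hcomm : (c.E l j ^ r) ((c.E i j ^ s) p) = (c.E i j ^ s) ((c.E l j ^ r) p) := by
    have hc : Commute (c.E l j ^ r) (c.E i j ^ s) :=
      ((c.Ecol i j l hij hlj hil).zpow_zpow s r).symm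
    rw [← Equiv.Perm.mul_apply, hc.eq, Equiv.Perm.mul_apply]
  rw [hcomm] at h1
  rw [← c.Φ_move_zpow i j hij s]
  refine ⟨?_, h1.2⟩
  rw [Ezpow_fst, Ezpow_fst, D.good_move_zpow i j _ hij]
  exact hr

theorem exgood (i j l : Fin 3) (hij : i ≠ j) (hlj : l ≠ j) (hil : i ≠ l) (g : G)
    (hu : D.unit j g) : ∃ r : ℤ, D.good i (g * D.x l j ^ r) := by
  obtain ⟨r, hr, _⟩ := D.ex l j i g hlj hij.symm hil.symm hu
  exact ⟨r, hr, j, hij.symm, (D.unit_move_zpow l j j g hlj hlj.symm r).2 hu⟩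

theorem A1' (i j l : Fin 3) (hij : i ≠ j) (hlj : l ≠ j) (hil : i ≠ l) (p : G × A)
    (hu : D.unit j p.1)
    (h : ∃ s : ℤ, (c.E i j ^ s) p ∈ c.Φ l) : ∃ s : ℤ, (c.E l j ^ s) p ∈ c.Φ i := by
  obtain ⟨r, hr⟩ := exgood i j l hij hlj hil p.1 hu
  exact ⟨r, c.A1 i j l hij hlj hil p h r hr⟩

theorem R_iff (i j l : Fin 3) (hij : i ≠ j) (hlj : l ≠ j) (hil : i ≠ l) (p : G × A)
    (hu : D.unit j p.1) : c.R j p ↔ ∃ s : ℤ, (c.E i j ^ s) p ∈ c.Φ l := by
  constructor
  · intro h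
    exact h i l hij hlj hil
  · intro h i' l' hi' hl' hil'
    by_cases hii : i' = i
    · subst hii
      have : l' = l := by omega
      subst this
      exact h
    · have h1 : i' = l := by omega
      have h2 : l' = i := by omega
      subst h1; subst h2
      exact c.A1' _ _ _ hij hlj hil p hu h

theorem R_inv (a b j : Fin 3) (hab : a ≠ b) (haj : a ≠ j) (p : G × A) (hu : D.unit j p.1) :
    c.R j (c.E a b p) ↔ c.R j p := by
  have hu' : D.unit j (c.E a b p).1 := (D.unit_move a b j p.1 hab haj.symm).2 hu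
  by_cases hbj : b = j
  · subst hbj
    obtain ⟨l, hl1, hl2'⟩ := third b a
    have hl2 : a ≠ l := hl2'.symm
    rw [c.R_iff a b l haj hl1 hl2 _ hu', c.R_iff a b l haj hl1 hl2 _ hu]
    constructor
    · rintro ⟨s, hs⟩
      refine ⟨s + 1, ?_⟩
      rw [zpow_add_one, Equiv.Perm.mul_apply]
      exact hs
    · rintro ⟨s, hs⟩
      refine ⟨s - 1, ?_⟩
      rw [← Equiv.Perm.mul_apply, ← zpow_add_one]
      simpa using hs
  · -- non-pivot move: a, b, j distinct
    rw [c.R_iff b j a hbj haj hab.symm _ hu', c.R_iff b j a hbj haj hab.symm _ hu]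
    refine exists_congr fun r => ?_
    have h1 := c.Epent_zpow a j b haj (Ne.symm hbj) hab r
    have h2 : (c.E b j ^ r) (c.E a b p) = (c.E a j ^ r) (c.E a b ((c.E b j ^ r) p)) := by
      rw [← Equiv.Perm.mul_apply, h1]
      rfl
    rw [h2, c.Φ_move_zpow a j haj, c.Φ_move a b hab]

theorem R_inv_zpow (a b j : Fin 3) (hab : a ≠ b) (haj : a ≠ j) (s : ℤ) (p : G × A)
    (hu : D.unit j p.1) :
    c.R j ((c.E a b ^ s) p) ↔ c.R j p := by
  induction s using Int.induction_on with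
  | zero => simp
  | succ n ih =>
    rw [add_comm, zpow_add, zpow_one, Equiv.Perm.mul_apply, c.R_inv a b j hab haj _ ?_, ih]
    rw [Ezpow_fst, D.unit_move_zpow a b j _ hab haj.symm]
    exact hu
  | pred n ih =>
    rw [← ih, ← c.R_inv a b j hab haj ((c.E a b ^ (-(n : ℤ) - 1)) p) ?_, ← Equiv.Perm.mul_apply,
      ← zpow_one_add]
    · ring_nf
    · rw [Ezpow_fst, D.unit_move_zpow a b j _ hab haj.symm]
      exact hu

theorem R_change (j l : Fin 3) (hjl : j ≠ l) (p : G × A) (hj : D.unit j p.1)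
    (hl : D.unit l p.1) (h : c.R j p) : c.R l p := by
  obtain ⟨i, hij, hil⟩ := third j l
  obtain ⟨s, hsl, hsj⟩ := D.ex i j l p.1 hij hjl hil hj
  have hgl : D.good l (p.1 * D.x i j ^ s) :=
    ⟨hsl, j, hjl, (D.unit_move_zpow i j j _ hij hij.symm s).2 hj⟩
  have hul : D.unit l (p.1 * D.x i j ^ s) := (D.unit_move_zpow i j l _ hij hil.symm s).2 hl
  have hgj : D.good j (p.1 * D.x i j ^ s) := ⟨hsj, l, hjl.symm, hul⟩
  have h1 : (c.E i j ^ s) p ∈ c.Φ l :=
    c.A1 l j i hjl.symm hij hil.symm p (h l i hjl.symm hij hil.symm) s hgl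
  have h2 : (c.E i j ^ s) p ∈ c.Φ j := by
    refine ⟨?_, h1.2⟩
    rw [Ezpow_fst]
    exact hgj
  have hul' : D.unit l ((c.E i j ^ s) p).1 := by rw [Ezpow_fst]; exact hul
  have h3 : c.R l ((c.E i j ^ s) p) := by
    rw [c.R_iff i l j hil hjl hij _ hul']
    exact ⟨0, by simpa using h2⟩
  rwa [c.R_inv_zpow i j l hij hil s p hl] at h3

/-- the graph of the primitive -/
def P (p : G × A) : Prop := ∃ j, D.unit j p.1 ∧ c.R j p

theorem P_iff (j : Fin 3) (p : G × A) (hj : D.unit j p.1) : c.P p ↔ c.R j p := by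
  constructor
  · rintro ⟨l, hl, h⟩
    by_cases hlj : l = j
    · subst hlj; exact h
    · exact c.R_change l j hlj p hl hj h
  · intro h
    exact ⟨j, hj, h⟩

theorem P_inv_of_unit (a b m : Fin 3) (hab : a ≠ b) (ham : a ≠ m) (p : G × A)
    (hm : D.unit m p.1) : c.P (c.E a b p) ↔ c.P p := by
  have hm' : D.unit m (c.E a b p).1 := (D.unit_move a b m p.1 hab ham.symm).2 hm
  rw [c.P_iff m _ hm', c.P_iff m _ hm, c.R_inv a b m hab ham p hm]

theorem P_inv (a b : Fin 3) (hab : a ≠ b) (p : G × A) : c.P (c.E a b p) ↔ c.P p := by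
  by_cases h : ∃ m, a ≠ m ∧ D.unit m p.1
  · obtain ⟨m, ham, hm⟩ := h
    exact c.P_inv_of_unit a b m hab ham p hm
  · push Not at h
    obtain ⟨j, hj⟩ := D.unit_exists p.1
    have hja : j = a := by
      by_contra hne
      exact h j (Ne.symm hne) hj
    subst hja
    rename_i j
    obtain ⟨e, hea, heb⟩ := third j b
    have hue : ¬ D.unit e p.1 := h e hea.symm
    have hub : ¬ D.unit b p.1 := h b hab
    -- p1 = E e j p
    have s1 : c.P (c.E e j p) ↔ c.P p := c.P_inv_of_unit e j j hea hea p hj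
    have hue1 : D.unit e (c.E e j p).1 := D.unit_gain e j p.1 hea hue hj
    have s2 : c.P (c.E j b (c.E e j p)) ↔ c.P (c.E e j p) :=
      c.P_inv_of_unit j b e hab hea.symm _ hue1
    have hrel : c.E j b (c.E e j p) = c.E e b (c.E e j (c.E j b p)) := by
      have := c.Epent e j b hea hab heb
      rw [← Equiv.Perm.mul_apply, this]
      rfl
    have huj2 : D.unit j (c.E j b p).1 := D.unit_keep j b p.1 hab hj hub
    have s3 : c.P (c.E e j (c.E j b p)) ↔ c.P (c.E j b p) :=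
      c.P_inv_of_unit e j j hea hea _ huj2
    have huj3 : D.unit j (c.E e j (c.E j b p)).1 :=
      (D.unit_move e j j _ hea hea.symm).2 huj2
    have s4 : c.P (c.E e b (c.E e j (c.E j b p))) ↔ c.P (c.E e j (c.E j b p)) :=
      c.P_inv_of_unit e b j heb hea _ huj3
    rw [← s3, ← s4, ← hrel, s2, s1]

theorem P_exists (g : G) : ∃ a : A, c.P (g, a) := by
  obtain ⟨j, hj⟩ := D.unit_exists g
  obtain ⟨i, l, hij, hlj, hil⟩ := two_others j
  obtain ⟨s, hs⟩ := exgood l j i hlj hij hil.symm g hj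
  set y := g * D.x i j ^ s with hy
  set q : G × A := (c.E i j ^ (-s)) (y, c.φ y) with hq
  have hq1 : q.1 = g := by
    rw [hq, Ezpow_fst, hy]; simp
  refine ⟨q.2, ?_⟩
  have hqq : (g, q.2) = q := by rw [← hq1]
  rw [hqq]
  refine ⟨j, by rw [hq1]; exact hj, ?_⟩
  rw [c.R_iff i j l hij hlj hil q (by rw [hq1]; exact hj)]
  refine ⟨s, ?_⟩
  rw [hq, ← Equiv.Perm.mul_apply, ← zpow_add]
  simp only [add_neg_cancel, zpow_zero, Equiv.Perm.coe_one, id_eq]
  exact ⟨hs, rfl⟩

theorem P_unique (g : G) (a b : A) (ha : c.P (g, a)) (hb : c.P (g, b)) : a = b := by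
  obtain ⟨j, hj⟩ := D.unit_exists g
  obtain ⟨i, l, hij, hlj, hil⟩ := two_others j
  rw [c.P_iff j _ hj] at ha hb
  obtain ⟨s, hs⟩ := exgood l j i hlj hij hil.symm g hj
  have h1 : (c.E i j ^ s) (g, a) ∈ c.Φ l :=
    c.A1 l j i hlj hij hil.symm (g, a) (ha l i hlj hij hil.symm) s hs
  have h2 : (c.E i j ^ s) (g, b) ∈ c.Φ l :=
    c.A1 l j i hlj hij hil.symm (g, b) (hb l i hlj hij hil.symm) s hs
  have h3 := c.Ezpow_snd_sub i j s g a b
  have e1 := h1.2
  have e2 := h2.2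
  rw [Ezpow_fst] at e1 e2
  rw [e1, e2] at h3
  simp only [sub_self] at h3
  exact (sub_eq_zero.1 h3.symm)

/-- **Theorem U.** -/
theorem main : ∃ F : G → A, (∀ i j g, i ≠ j → F (g * D.x i j) = F g + c.f i j g) ∧
    ∀ g ∈ D.Z, F g = c.φ g := by
  choose F hF using c.P_exists
  refine ⟨F, ?_, ?_⟩
  · intro i j g hij
    have h1 : c.P (c.E i j (g, F g)) := (c.P_inv i j hij _).2 (hF g)
    exact c.P_unique _ _ _ (hF _) h1
  · rintro g ⟨m, hm⟩
    obtain ⟨j, hjm, hj⟩ := hm.2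
    obtain ⟨i, hij, him⟩ := third j m
    refine c.P_unique g _ _ (hF g) ?_
    rw [c.P_iff j _ hj, c.R_iff i j m hij hjm.symm him _ hj]
    exact ⟨0, by simpa using ⟨hm, rfl⟩⟩

end Cocycle

end Setup

end Pool.Agent.N659.IRP
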