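import Mathlib
import Pool.Agent.N659.IRP.Cocycle

set_option autoImplicit false

/-!
Abstract level structure: from the nested connected sets `W n` and the set `Z` of good vertices
we get the components `K n` and the connectedness of `K 0` and `K (n+1) \ K n`.
-/

namespace Pool.Agent.N659.IRP

open Function

/-- abstract level structure over a `Setup` -/
structure Lev {G : Type*} [Group G] (D : Setup G) where
  S0 : Set G
  one_mem : (1 : G) ∈ S0
  inv_mem : ∀ s ∈ S0, s⁻¹ ∈ S0
  x_mem : ∀ i j, i ≠ j → D.x i j ∈ S0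
  S0_cases : ∀ s ∈ S0, s = 1 ∨ ∃ i j, i ≠ j ∧ (s = D.x i j ∨ s = (D.x i j)⁻¹)
  gen : Subgroup.closure {g : G | ∃ i j, i ≠ j ∧ g = D.x i j} = ⊤
  W : ℕ → Set G
  anti : ∀ n g a b c d, g ∈ W (n + 1) → a ∈ S0 → b ∈ S0 → c ∈ S0 → d ∈ S0 →
    g * (a * b * c * d) ∈ W n
  empt : ∀ g, ∃ n, g ∉ W n
  ne : ∀ n, (W n).Nonempty
  conn : ∀ n, ∀ P : G → Prop, (∀ g ∈ W n, ∀ s ∈ S0, g * s ∈ W n → P g → P (g * s)) →
    ∀ a ∈ W n, ∀ b ∈ W n, P a → P b
  ZW : ∀ g ∈ D.Z, g ∉ W 0

namespace Lev

variable {G : Type*} [Group G] {D : Setup G} (L : Lev D)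

/-- the ball used for connectedness -/
def S : Set G := {s | ∃ a ∈ L.S0, ∃ b ∈ L.S0, ∃ c ∈ L.S0, ∃ d ∈ L.S0, s = a * b * c * d}

theorem S0_sub_S {s : G} (hs : s ∈ L.S0) : s ∈ L.S :=
  ⟨s, hs, 1, L.one_mem, 1, L.one_mem, 1, L.one_mem, by simp⟩

theorem S_inv {s : G} (hs : s ∈ L.S) : s⁻¹ ∈ L.S := by
  obtain ⟨a, ha, b, hb, c, hc, d, hd, rfl⟩ := hs
  exact ⟨d⁻¹, L.inv_mem _ hd, c⁻¹, L.inv_mem _ hc, b⁻¹, L.inv_mem _ hb, a⁻¹, L.inv_mem _ ha,
    by simp [mul_assoc]⟩

theorem anti' (n : ℕ) (g s : G) (hg : g ∈ L.W (n + 1)) (hs : s ∈ L.S) : g * s ∈ L.W n := by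
  obtain ⟨a, ha, b, hb, c, hc, d, hd, rfl⟩ := hs
  exact L.anti n g a b c d hg ha hb hc hd

theorem W_succ_sub (n : ℕ) : L.W (n + 1) ⊆ L.W n := by
  intro g hg
  simpa using L.anti' n g 1 hg (L.S0_sub_S L.one_mem)

theorem W_anti {m n : ℕ} (h : m ≤ n) : L.W n ⊆ L.W m := by
  induction h with
  | refl => exact subset_rfl
  | step _ ih => exact (L.W_succ_sub _).trans ih

/-- the component of the complement of `W n` containing `Z` -/
inductive K (n : ℕ) : G → Prop
  | base (g : G) (hg : g ∈ D.Z) : K n g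
  | step (g s : G) (hg : g ∉ L.W n) (hs : s ∈ L.S0) (h : K n (g * s)) : K n g

theorem K_not_W {n : ℕ} {g : G} (h : L.K n g) : g ∉ L.W n := by
  induction h with
  | base g hg => exact fun h => L.ZW g hg (L.W_anti (Nat.zero_le n) h)
  | step g s hg hs h ih => exact hg

/-- closure of `K n` under moves outside `W n` -/
theorem K_move {n : ℕ} {g s : G} (h : L.K n g) (hs : s ∈ L.S0) (hg : g * s ∉ L.W n) :
    L.K n (g * s) :=
  K.step (g * s) s⁻¹ hg (L.inv_mem s hs) (by simpa using h)

theorem K_mono {n : ℕ} {g : G} (h : L.K n g) : L.K (n + 1) g := by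
  induction h with
  | base g hg => exact K.base g hg
  | step g s hg hs h ih => exact K.step g s (fun h => hg (L.W_succ_sub n h)) hs ih

theorem K_mono' {m n : ℕ} (hmn : m ≤ n) {g : G} (h : L.K m g) : L.K n g := by
  induction hmn with
  | refl => exact h
  | step _ ih => exact L.K_mono ih

theorem K_nbhd {n : ℕ} {g s : G} (h : L.K n g) (hs : s ∈ L.S) : L.K (n + 1) (g * s) := by
  have hg := L.K_not_W h
  have key : ∀ t ∈ L.S, g * t ∉ L.W (n + 1) := by
    intro t ht hW
    have := L.anti' n (g * t) t⁻¹ hW (L.S_inv ht)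
    simp only [mul_inv_cancel_right] at this
    exact hg this
  obtain ⟨a, ha, b, hb, c, hc, d, hd, rfl⟩ := hs
  have h0 : L.K (n + 1) g := L.K_mono h
  have h1 : L.K (n + 1) (g * a) := L.K_move h0 ha
    (key a ⟨a, ha, 1, L.one_mem, 1, L.one_mem, 1, L.one_mem, by simp⟩)
  have h2 : L.K (n + 1) (g * a * b) := L.K_move h1 hb (by
    have := key (a * b) ⟨a, ha, b, hb, 1, L.one_mem, 1, L.one_mem, by simp⟩
    simpa [mul_assoc] using this)
  have h3 : L.K (n + 1) (g * a * b * c) := L.K_move h2 hc (by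
    have := key (a * b * c) ⟨a, ha, b, hb, c, hc, 1, L.one_mem, by simp⟩
    simpa [mul_assoc] using this)
  have h4 : L.K (n + 1) (g * a * b * c * d) := L.K_move h3 hd (by
    have := key (a * b * c * d) ⟨a, ha, b, hb, c, hc, d, hd, rfl⟩
    simpa [mul_assoc] using this)
  simpa [mul_assoc] using h4

/-- induction along the Cayley graph -/
theorem cayley_ind (Q : G → Prop) (a : G) (ha : Q a)
    (h : ∀ g s, s ∈ L.S0 → Q g → Q (g * s)) : ∀ b, Q b := by
  have key : ∀ w : G, ∀ g, Q g → Q (g * w) := by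
    intro w
    have hw : w ∈ Subgroup.closure {g : G | ∃ i j, i ≠ j ∧ g = D.x i j} := by
      rw [L.gen]; trivial
    induction hw using Subgroup.closure_induction with
    | mem x hx =>
      obtain ⟨i, j, hij, rfl⟩ := hx
      intro g hg
      exact h g _ (L.x_mem i j hij) hg
    | one => intro g hg; simpa using hg
    | mul x y _ _ hx hy =>
      intro g hg
      rw [← mul_assoc]
      exact hy _ (hx g hg)
    | inv x hx hxx =>
      -- need invariance under inverses : use that closure is generated by symmetric set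
      intro g hg
      have : ∀ y ∈ Subgroup.closure {g : G | ∃ i j, i ≠ j ∧ g = D.x i j},
          ∀ g, (Q g → Q (g * y)) ∧ (Q g → Q (g * y⁻¹)) := by
        intro y hy
        induction hy using Subgroup.closure_induction with
        | mem x hx =>
          obtain ⟨i, j, hij, rfl⟩ := hx
          intro g
          exact ⟨h g _ (L.x_mem i j hij), h g _ (L.inv_mem _ (L.x_mem i j hij))⟩
        | one => intro g; simp
        | mul x y _ _ hx hy =>
          intro g
          refine ⟨fun hg => ?_, fun hg => ?_⟩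
          · rw [← mul_assoc]; exact (hy _).1 ((hx g).1 hg)
          · rw [mul_inv_rev, ← mul_assoc]; exact (hx _).2 ((hy g).2 hg)
        | inv x _ hx =>
          intro g
          refine ⟨(hx g).2, fun hg => ?_⟩
          rw [inv_inv]; exact (hx g).1 hg
      exact (this x hx g).2 hg
  intro b
  have := key (a⁻¹ * b) a ha
  simpa using this

theorem Z_nonempty : (D.Z).Nonempty := by
  obtain ⟨j, hj⟩ := D.unit_exists 1
  obtain ⟨i, l, hij, hlj, hil⟩ := two_others j
  obtain ⟨r, hr, _⟩ := D.ex l j i 1 hlj hij.symm hil.symm hj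
  exact ⟨_, i, hr, j, hij.symm, (D.unit_move_zpow l j j 1 hlj hlj.symm r).2 hj⟩

theorem K_all (g : G) : ∃ n, L.K n g := by
  obtain ⟨z, hz⟩ := Z_nonempty (D := D)
  refine L.cayley_ind (fun g => ∃ n, L.K n g) z ⟨0, K.base z hz⟩ ?_ g
  rintro g s hs ⟨n, hn⟩
  exact ⟨n + 1, L.K_nbhd hn (L.S0_sub_S hs)⟩

/-- The set of good vertices is connected: test-function version. -/
theorem Z_conn (P : G → Prop) (hP : ∀ g ∈ D.Z, ∀ s ∈ L.S0, g * s ∈ D.Z → P g → P (g * s))
    (a : G) (ha : a ∈ D.Z) (b : G) (hb : b ∈ D.Z) (hPa : P a) : P b := by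
  classical
  have hP' : ∀ i j g, i ≠ j → g ∈ D.Z → g * D.x i j ∈ D.Z → (P (g * D.x i j) ↔ P g) := by
    intro i j g hij hg hg'
    constructor
    · intro h
      have := hP _ hg' _ (L.inv_mem _ (L.x_mem i j hij)) (by simpa using hg) h
      simpa using this
    · exact hP g hg _ (L.x_mem i j hij) hg'
  let c : D.Cocycle (ZMod 2) :=
    { f := fun _ _ _ => 0
      φ := fun g => if P g then 1 else 0
      frow := by intros; simp
      fcol := by intros; simp
      fpent := by intros; simp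
      fφ := by
        intro i j g hij hg hg'
        simp only [hP' i j g hij hg hg', add_zero] }
  obtain ⟨F, hF1, hF2⟩ := c.main
  have hF1' : ∀ i j g, i ≠ j → F (g * D.x i j) = F g := by
    intro i j g hij
    have := hF1 i j g hij
    simpa [c] using this
  have hconst : ∀ g, F g = F a := by
    refine L.cayley_ind (fun g => F g = F a) a rfl ?_
    intro g s hs hg
    rcases L.S0_cases s hs with rfl | ⟨i, j, hij, rfl | rfl⟩
    · simpa using hg
    · rw [hF1' i j g hij]; exact hg
    · have := hF1' i j (g * (D.x i j)⁻¹) hij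
      simp only [inv_mul_cancel_right] at this
      rw [← this]; exact hg
  have h1 := hF2 a ha
  have h2 := hF2 b hb
  rw [hconst b] at h2
  rw [h1] at h2
  by_contra hcon
  simp [c, hPa, hcon] at h2

/-- S-adjacency inside a set -/
def radj (X : Set G) (a b : G) : Prop := a ∈ X ∧ b ∈ X ∧ a⁻¹ * b ∈ L.S

theorem radj_symm (X : Set G) {a b : G} (h : L.radj X a b) : L.radj X b a := by
  refine ⟨h.2.1, h.1, ?_⟩
  have := L.S_inv h.2.2
  simpa using this

theorem rtg_symm (X : Set G) {a b : G} (h : Relation.ReflTransGen (L.radj X) a b) :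
    Relation.ReflTransGen (L.radj X) b a := by
  induction h with
  | refl => exact .refl
  | tail _ hbc ih => exact .head (L.radj_symm X hbc) ih

/-- `K 0` is connected -/
theorem K0_conn (a b : G) (ha : L.K 0 a) (hb : L.K 0 b) :
    Relation.ReflTransGen (L.radj {g | L.K 0 g}) a b := by
  -- each point is joined to `Z`
  have toZ : ∀ g, L.K 0 g → ∃ z ∈ D.Z, Relation.ReflTransGen (L.radj {g | L.K 0 g}) g z := by
    intro g hg
    induction hg with
    | base g hg => exact ⟨g, hg, .refl⟩
    | step g s hg hs h ih =>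
      obtain ⟨z, hz, hr⟩ := ih
      refine ⟨z, hz, .head ⟨K.step g s hg hs h, h, ?_⟩ hr⟩
      simpa using L.S0_sub_S hs
  obtain ⟨z, hz, h1⟩ := toZ a ha
  obtain ⟨z', hz', h2⟩ := toZ b hb
  have h3 : Relation.ReflTransGen (L.radj {g | L.K 0 g}) z z' := by
    refine L.Z_conn (fun g => Relation.ReflTransGen (L.radj {g | L.K 0 g}) z g) ?_ z hz z' hz' .refl
    intro g hg s hs hgs h
    refine h.tail ⟨K.base g hg, K.base _ hgs, ?_⟩
    simpa using L.S0_sub_S hs
  exact (h1.trans h3).trans (L.rtg_symm _ h2)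

/-- the layer `K (n+1) \ K n` -/
def X (n : ℕ) : Set G := {g | L.K (n + 1) g ∧ ¬ L.K n g}

/-- every point of the layer is joined inside the layer to a boundary point -/
theorem to_boundary (n : ℕ) (g : G) (hg : g ∈ L.X n) :
    ∃ y ∈ L.X n, (∃ s ∈ L.S0, L.K n (y * s)) ∧ Relation.ReflTransGen (L.radj (L.X n)) g y := by
  obtain ⟨h1, h2⟩ := hg
  induction h1 with
  | base g hg => exact absurd (K.base g hg) h2
  | step g s hg hs h ih =>
    by_cases hk : L.K n (g * s)
    · exact ⟨g, ⟨K.step g s hg hs h, h2⟩, ⟨s, hs, hk⟩, .refl⟩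
    · obtain ⟨y, hy, hb, hr⟩ := ih hk
      refine ⟨y, hy, hb, .head ⟨⟨K.step g s hg hs h, h2⟩, ⟨h, hk⟩, ?_⟩ hr⟩
      simpa using L.S0_sub_S hs

/-- the layer is nonempty -/
theorem X_nonempty (n : ℕ) : (L.X n).Nonempty := by
  by_contra hne
  rw [Set.not_nonempty_iff_eq_empty] at hne
  have hall : ∀ g, L.K n g := by
    obtain ⟨z, hz⟩ := Z_nonempty (D := D)
    refine L.cayley_ind (fun g => L.K n g) z (K.base z hz) ?_
    intro g s hs hg
    by_contra hcon
    have : g * s ∈ L.X n := ⟨L.K_nbhd hg (L.S0_sub_S hs), hcon⟩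
    rw [hne] at this
    exact this
  obtain ⟨w, hw⟩ := L.ne n
  exact L.K_not_W (hall w) hw

/-- boundary points of a layer are all joined inside the layer -/
theorem boundary_conn (n : ℕ) (y0 : G) (hy0 : y0 ∈ L.X n) (hb0 : ∃ s ∈ L.S0, L.K n (y0 * s))
    (y : G) (hy : y ∈ L.X n) (hb : ∃ s ∈ L.S0, L.K n (y * s)) :
    Relation.ReflTransGen (L.radj (L.X n)) y0 y := by
  classical
  set C : Set G := {y | Relation.ReflTransGen (L.radj (L.X n)) y0 y} with hC
  have hy0C : y0 ∈ C := Relation.ReflTransGen.refl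
  have hCX : C ⊆ L.X n := by
    intro z hz
    rcases Relation.ReflTransGen.cases_tail hz with h | ⟨w, _, hw⟩
    · rw [h]; exact hy0
    · exact hw.2.1
  have hCadj : ∀ c v, c ∈ C → v ∈ L.X n → c⁻¹ * v ∈ L.S → v ∈ C := by
    intro c v hc hv hcv
    exact Relation.ReflTransGen.tail hc ⟨hCX hc, hv, hcv⟩
  let fe : G → G → ZMod 2 := fun v v' =>
    if (L.K n v ∧ v' ∈ C) ∨ (v ∈ C ∧ L.K n v') then 1 else 0
  -- local triviality
  have hkap : ∀ g : G, ∃ κ : G → ZMod 2, ∀ a ∈ L.S0, ∀ b ∈ L.S0, ∀ c ∈ L.S0, ∀ d ∈ L.S0,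
      fe (g * (a * b)) (g * (c * d)) = κ (g * (a * b)) + κ (g * (c * d)) := by
    intro g
    have hdiff : ∀ a ∈ L.S0, ∀ b ∈ L.S0, ∀ c ∈ L.S0, ∀ d ∈ L.S0,
        (g * (a * b))⁻¹ * (g * (c * d)) ∈ L.S := by
      intro a ha b hb c hc d hd
      exact ⟨b⁻¹, L.inv_mem _ hb, a⁻¹, L.inv_mem _ ha, c, hc, d, hd, by group⟩
    by_cases hK : ∃ a ∈ L.S0, ∃ b ∈ L.S0, L.K n (g * (a * b))
    · by_cases hCC : ∃ a ∈ L.S0, ∃ b ∈ L.S0, g * (a * b) ∈ C
      · obtain ⟨a0, ha0, b0, hb0, hk0⟩ := hK
        obtain ⟨a1, ha1, b1, hb1, hc1⟩ := hCC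
        have hdich : ∀ c ∈ L.S0, ∀ d ∈ L.S0, ¬ L.K n (g * (c * d)) → g * (c * d) ∈ C := by
          intro c hc d hd hn
          have h1 : L.K (n + 1) (g * (c * d)) := by
            have := L.K_nbhd hk0 (hdiff a0 ha0 b0 hb0 c hc d hd)
            rwa [mul_inv_cancel_left] at this
          exact hCadj _ _ hc1 ⟨h1, hn⟩ (hdiff a1 ha1 b1 hb1 c hc d hd)
        refine ⟨fun v => if v ∈ C then 1 else 0, ?_⟩
        intro a ha b hb c hc d hd
        have hex : ∀ v, v ∈ C → ¬ L.K n v := fun v hv => (hCX hv).2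
        by_cases h1 : L.K n (g * (a * b)) <;> by_cases h2 : L.K n (g * (c * d))
        · have h1' : g * (a * b) ∉ C := fun h => hex _ h h1
          have h2' : g * (c * d) ∉ C := fun h => hex _ h h2
          simp [fe, h1', h2']
        · have h1' : g * (a * b) ∉ C := fun h => hex _ h h1
          have h2' : g * (c * d) ∈ C := hdich c hc d hd h2
          simp [fe, h1, h1', h2']
        · have h1' : g * (a * b) ∈ C := hdich a ha b hb h1
          have h2' : g * (c * d) ∉ C := fun h => hex _ h h2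
          simp [fe, h2, h1', h2']
        · have h1' : g * (a * b) ∈ C := hdich a ha b hb h1
          have h2' : g * (c * d) ∈ C := hdich c hc d hd h2
          simp only [fe, h1, h2, h1', h2', false_and, and_false, or_self, if_false, if_true]
          decide
      · push Not at hCC
        refine ⟨fun _ => 0, ?_⟩
        intro a ha b hb c hc d hd
        have h1 := hCC a ha b hb
        have h2 := hCC c hc d hd
        simp [fe, h1, h2]
    · push Not at hK
      refine ⟨fun _ => 0, ?_⟩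
      intro a ha b hb c hc d hd
      have h1 := hK a ha b hb
      have h2 := hK c hc d hd
      simp [fe, h1, h2]
  have h1m := L.one_mem
  have two : ∀ a : ZMod 2, a + a = 0 := by decide
  have fe_symm : ∀ v v', fe v v' = fe v' v := by
    intro v v'
    simp only [fe]
    congr 1
    apply propext
    constructor <;> rintro (⟨h1, h2⟩ | ⟨h1, h2⟩)
    · exact Or.inr ⟨h2, h1⟩
    · exact Or.inl ⟨h2, h1⟩
    · exact Or.inr ⟨h2, h1⟩
    · exact Or.inl ⟨h2, h1⟩
  let c : D.Cocycle (ZMod 2) :=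
    { f := fun i j g => fe g (g * D.x i j)
      φ := fun _ => 0
      frow := by
        intro i j l g hij hil hjl
        obtain ⟨κ, hκ⟩ := hkap g
        have e1 := hκ 1 h1m 1 h1m (D.x i j) (L.x_mem i j hij) 1 h1m
        have e2 := hκ (D.x i j) (L.x_mem i j hij) 1 h1m (D.x i j) (L.x_mem i j hij) (D.x i l)
          (L.x_mem i l hil)
        have e3 := hκ 1 h1m 1 h1m (D.x i l) (L.x_mem i l hil) 1 h1m
        have e4 := hκ (D.x i l) (L.x_mem i l hil) 1 h1m (D.x i l) (L.x_mem i l hil) (D.x i j)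
          (L.x_mem i j hij)
        have hc := D.row i j l hij hil hjl
        simp only [mul_one] at e1 e2 e3 e4
        rw [← mul_assoc] at e2 e4
        rw [e1, e2, e3, e4, mul_assoc g, mul_assoc g, hc]
        have t1 := two (κ (g * D.x i j))
        have t2 := two (κ (g * D.x i l))
        linear_combination t1 - t2
      fcol := by
        intro i j l g hij hlj hil
        obtain ⟨κ, hκ⟩ := hkap g
        have e1 := hκ 1 h1m 1 h1m (D.x i j) (L.x_mem i j hij) 1 h1m
        have e2 := hκ (D.x i j) (L.x_mem i j hij) 1 h1m (D.x i j) (L.x_mem i j hij) (D.x l j)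
          (L.x_mem l j hlj)
        have e3 := hκ 1 h1m 1 h1m (D.x l j) (L.x_mem l j hlj) 1 h1m
        have e4 := hκ (D.x l j) (L.x_mem l j hlj) 1 h1m (D.x l j) (L.x_mem l j hlj) (D.x i j)
          (L.x_mem i j hij)
        have hc := D.col i j l hij hlj hil
        simp only [mul_one] at e1 e2 e3 e4
        rw [← mul_assoc] at e2 e4
        rw [e1, e2, e3, e4, mul_assoc g, mul_assoc g, hc]
        have t1 := two (κ (g * D.x i j))
        have t2 := two (κ (g * D.x l j))
        linear_combination t1 - t2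
      fpent := by
        intro i j l g hij hjl hil
        obtain ⟨κ, hκ⟩ := hkap g
        have e1 := hκ 1 h1m 1 h1m (D.x i j) (L.x_mem i j hij) 1 h1m
        have e2 := hκ (D.x i j) (L.x_mem i j hij) 1 h1m (D.x i j) (L.x_mem i j hij) (D.x j l)
          (L.x_mem j l hjl)
        have e3 := hκ 1 h1m 1 h1m (D.x j l) (L.x_mem j l hjl) 1 h1m
        have e4 := hκ (D.x j l) (L.x_mem j l hjl) 1 h1m (D.x j l) (L.x_mem j l hjl) (D.x i j)
          (L.x_mem i j hij)
        have e5 := hκ (D.x j l) (L.x_mem j l hjl) (D.x i j) (L.x_mem i j hij) (D.x i j)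
          (L.x_mem i j hij) (D.x j l) (L.x_mem j l hjl)
        have hc := D.pent i j l hij hjl hil
        simp only [mul_one] at e1 e2 e3 e4 e5
        have hg : g * D.x j l * D.x i j * D.x i l = g * (D.x i j * D.x j l) := by
          rw [hc]; simp [mul_assoc]
        have hg2 : g * D.x j l * D.x i j = g * (D.x j l * D.x i j) := by simp [mul_assoc]
        have hg3 : g * D.x i j * D.x j l = g * (D.x i j * D.x j l) := by simp [mul_assoc]
        rw [hg, hg2, hg3, e1, e2, e3, e4, e5]
        have t1 := two (κ (g * D.x i j))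
        have t2 := two (κ (g * D.x j l))
        have t3 := two (κ (g * (D.x j l * D.x i j)))
        linear_combination t1 - t2 - t3
      fφ := by
        intro i j g hij hg hg'
        have h1 : g ∉ C := fun h => (hCX h).2 (K.base g hg)
        have h2 : g * D.x i j ∉ C := fun h => (hCX h).2 (K.base _ hg')
        simp [fe, h1, h2] }
  obtain ⟨F, hF1, hF2⟩ := c.main
  have hF : ∀ g s, s ∈ L.S0 → F (g * s) = F g + fe g (g * s) := by
    intro g s hs
    rcases L.S0_cases s hs with rfl | ⟨i, j, hij, rfl | rfl⟩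
    · have : fe g g = 0 := by
        simp only [fe]
        rw [if_neg]
        rintro (⟨h1, h2⟩ | ⟨h1, h2⟩)
        · exact (hCX h2).2 h1
        · exact (hCX h1).2 h2
      simp [this]
    · exact hF1 i j g hij
    · have h3 := hF1 i j (g * (D.x i j)⁻¹) hij
      simp only [inv_mul_cancel_right] at h3
      have h4 : c.f i j (g * (D.x i j)⁻¹) = fe (g * (D.x i j)⁻¹) g := by
        simp [c]
      rw [h4] at h3
      rw [h3, fe_symm g]
      have t1 := two (fe (g * (D.x i j)⁻¹) g)
      linear_combination -t1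
  -- F = 0 on K n
  have hFK : ∀ g, L.K n g → F g = 0 := by
    intro g hg
    induction hg with
    | base g hg => exact hF2 g hg
    | step g s hg hs h ih =>
      have hk : L.K n g := K.step g s hg hs h
      have h1 := hF g s hs
      have h2 : fe g (g * s) = 0 := by
        simp only [fe]
        rw [if_neg]
        rintro (⟨_, h2⟩ | ⟨h1, _⟩)
        · exact (hCX h2).2 h
        · exact (hCX h1).2 hk
      rw [h2, ih, add_zero] at h1
      exact h1.symm
  -- F is locally constant off K n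
  have hFoff : ∀ g s, s ∈ L.S0 → ¬ L.K n g → ¬ L.K n (g * s) → F (g * s) = F g := by
    intro g s hs h1 h2
    have h3 := hF g s hs
    have h4 : fe g (g * s) = 0 := by
      simp only [fe]
      rw [if_neg]
      rintro (⟨h, _⟩ | ⟨_, h⟩)
      · exact h1 h
      · exact h2 h
    rw [h4, add_zero] at h3
    exact h3
  obtain ⟨w0, hw0⟩ := L.ne n
  have hFW : ∀ w ∈ L.W n, F w = F w0 := by
    intro w hw
    refine L.conn n (fun g => F g = F w0) ?_ w0 hw0 w hw rfl
    intro g hg s hs hgs h
    rw [hFoff g s hs (fun h => L.K_not_W h hg) (fun h => L.K_not_W h hgs)]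
    exact h
  have hFout : ∀ g, ¬ L.K n g → F g = F w0 := by
    -- walk from `w0` to `g`
    have key : ∀ g, L.K n g ∨ F g = F w0 := by
      -- prove by walking from `w0`; need the reversed walk
      intro g
      by_contra hcon
      push Not at hcon
      obtain ⟨hg, hFg⟩ := hcon
      -- starting from g walk: invariant not K n and F = F g
      have : ∀ b, (¬ L.K n b ∧ F b = F g) ∨ (∃ w ∈ L.W n, F w = F g) := by
        refine L.cayley_ind _ g (Or.inl ⟨hg, rfl⟩) ?_
        rintro b s hs (⟨hb1, hb2⟩ | h)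
        · by_cases hbW : b ∈ L.W n
          · exact Or.inr ⟨b, hbW, hb2⟩
          · by_cases hbs : L.K n (b * s)
            · exact absurd (K.step b s hbW hs hbs) hb1
            · exact Or.inl ⟨hbs, by rw [hFoff b s hs hb1 hbs, hb2]⟩
        · exact Or.inr h
      rcases this w0 with ⟨_, h⟩ | ⟨w, hw, h⟩
      · exact hFg h.symm
      · exact hFg (by rw [← h, hFW w hw])
    intro g hg
    exact (key g).resolve_left hg
  -- conclusion
  obtain ⟨s0, hs0, hk0⟩ := hb0
  obtain ⟨s, hs, hk⟩ := hb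
  have e0 := hF y0 s0 hs0
  rw [hFK _ hk0] at e0
  have hfe0 : fe y0 (y0 * s0) = 1 := by
    simp only [fe]
    rw [if_pos]
    exact Or.inr ⟨hy0C, hk0⟩
  rw [hfe0, hFout y0 hy0.2] at e0
  have e := hF y s hs
  rw [hFK _ hk, hFout y hy.2] at e
  have hfe : fe y (y * s) = 1 := by
    linear_combination e0 - e
  by_contra hcon
  have : fe y (y * s) = 0 := by
    simp only [fe]
    rw [if_neg]
    rintro (⟨h1, _⟩ | ⟨h1, _⟩)
    · exact hy.2 h1
    · exact hcon h1
  rw [this] at hfe
  exact absurd hfe (by decide)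

/-- every layer is connected -/
theorem X_conn (n : ℕ) (a b : G) (ha : a ∈ L.X n) (hb : b ∈ L.X n) :
    Relation.ReflTransGen (L.radj (L.X n)) a b := by
  obtain ⟨y, hy, hyb, h1⟩ := L.to_boundary n a ha
  obtain ⟨y', hy', hyb', h2⟩ := L.to_boundary n b hb
  exact (h1.trans (L.boundary_conn n y hy hyb y' hy' hyb')).trans (L.rtg_symm _ h2)

end Lev

end Pool.Agent.N659.IRP
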