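import Mathlib
import Pool.Agent.N659.IRP.Levels

set_option autoImplicit false

/-!
The partition attached to a level structure.
-/

namespace Pool.Agent.N659.IRP

namespace Lev

variable {G : Type*} [Group G] {D : Setup G} (L : Lev D)

/-- same part -/
def rel (a b : G) : Prop := ∀ n, L.K n a ↔ L.K n b

theorem rel_class_zero {a : G} (ha : L.K 0 a) : {h | L.rel a h} = {h | L.K 0 h} := by
  ext h
  constructor
  · intro hh
    exact (hh 0).1 ha
  · intro hh n
    exact ⟨fun _ => L.K_mono' (Nat.zero_le n) hh, fun _ => L.K_mono' (Nat.zero_le n) ha⟩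

theorem rel_class_succ {a : G} {n : ℕ} (ha : a ∈ L.X n) : {h | L.rel a h} = L.X n := by
  ext h
  constructor
  · intro hh
    exact ⟨(hh (n + 1)).1 ha.1, fun h' => ha.2 ((hh n).2 h')⟩
  · intro hh m
    by_cases hm : n + 1 ≤ m
    · exact ⟨fun _ => L.K_mono' hm hh.1, fun _ => L.K_mono' hm ha.1⟩
    · have hm' : m ≤ n := by omega
      exact ⟨fun h' => absurd (L.K_mono' hm' h') ha.2, fun h' => absurd (L.K_mono' hm' h') hh.2⟩

theorem zero_or_layer (a : G) : L.K 0 a ∨ ∃ n, a ∈ L.X n := by
  classical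
  have h := L.K_all a
  have h1 := Nat.find_spec h
  rcases Nat.eq_zero_or_pos (Nat.find h) with h0 | h0
  · left
    rwa [h0] at h1
  · right
    refine ⟨Nat.find h - 1, ?_, ?_⟩
    · rwa [Nat.sub_add_cancel h0]
    · exact Nat.find_min h (by omega)

theorem rel_conn (a b : G) (hab : L.rel a b) :
    Relation.ReflTransGen (L.radj {h | L.rel a h}) a b := by
  rcases L.zero_or_layer a with h | ⟨n, h⟩
  · rw [L.rel_class_zero h]
    exact L.K0_conn a b h ((hab 0).1 h)
  · rw [L.rel_class_succ h]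
    refine L.X_conn n a b h ?_
    rw [← L.rel_class_succ h]
    exact hab

/-- infinitely many parts -/
theorem rel_many (A : Finset G) : ∃ g, ∀ a ∈ A, ¬ L.rel a g := by
  classical
  have h : ∃ N, ∀ a ∈ A, L.K N a := by
    induction A using Finset.induction_on with
    | empty => exact ⟨0, by simp⟩
    | insert a A _ ih =>
      obtain ⟨N, hN⟩ := ih
      obtain ⟨n, hn⟩ := L.K_all a
      refine ⟨max n N, ?_⟩
      intro b hb
      rcases Finset.mem_insert.1 hb with rfl | hb
      · exact L.K_mono' (le_max_left _ _) hn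
      · exact L.K_mono' (le_max_right _ _) (hN b hb)
  obtain ⟨N, hN⟩ := h
  obtain ⟨g, hg⟩ := L.X_nonempty N
  exact ⟨g, fun a ha hr => hg.2 ((hr N).1 (hN a ha))⟩

/-- finitely many parts have level at most `N` -/
theorem finite_below (N : ℕ) : ∃ A : Finset G, ∀ y, L.K N y → ∃ a ∈ A, L.rel a y := by
  classical
  obtain ⟨z, hz⟩ := Z_nonempty (D := D)
  have hz0 : L.K 0 z := K.base z hz
  induction N with
  | zero =>
    refine ⟨{z}, fun y hy => ⟨z, by simp, ?_⟩⟩
    have : y ∈ {h | L.rel z h} := by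
      rw [L.rel_class_zero hz0]; exact hy
    exact this
  | succ N ih =>
    obtain ⟨A, hA⟩ := ih
    obtain ⟨x, hx⟩ := L.X_nonempty N
    refine ⟨insert x A, fun y hy => ?_⟩
    by_cases h : L.K N y
    · obtain ⟨a, ha, har⟩ := hA y h
      exact ⟨a, Finset.mem_insert_of_mem ha, har⟩
    · refine ⟨x, Finset.mem_insert_self _ _, ?_⟩
      have : y ∈ {h | L.rel x h} := by
        rw [L.rel_class_succ hx]; exact ⟨hy, h⟩
      exact this

/-- every part touches finitely many parts -/
theorem rel_finite_adj (g : G) : ∃ A : Finset G, ∀ x y, L.rel g x → x⁻¹ * y ∈ L.S →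
    ∃ a ∈ A, L.rel a y := by
  obtain ⟨n, hn⟩ := L.K_all g
  obtain ⟨A, hA⟩ := L.finite_below (n + 1)
  refine ⟨A, fun x y hx hxy => hA y ?_⟩
  have := L.K_nbhd ((hx n).1 hn) hxy
  rwa [mul_inv_cancel_left] at this

end Lev

end Pool.Agent.N659.IRP
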