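import Mathlib

set_option autoImplicit false

/-!
Transvections in `SL₃(ℤ)`, their relations and a generation statement.
-/

namespace Pool.Agent.N659.IRP

open Matrix

abbrev SL3 := Matrix.SpecialLinearGroup (Fin 3) ℤ

/-- the transvection `x_{ij}(s)` (identity when `i = j`) -/
def X (i j : Fin 3) (s : ℤ) : SL3 :=
  if h : i ≠ j then SpecialLinearGroup.transvection h s else 1

/-- matrix entries -/
def ent (g : SL3) (i j : Fin 3) : ℤ := (g : Matrix (Fin 3) (Fin 3) ℤ) i j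

theorem ent_ext {g h : SL3} (H : ∀ i j, ent g i j = ent h i j) : g = h :=
  Matrix.SpecialLinearGroup.ext _ _ H

theorem ent_mul (g h : SL3) (i j : Fin 3) :
    ent (g * h) i j = ent g i 0 * ent h 0 j + ent g i 1 * ent h 1 j + ent g i 2 * ent h 2 j := by
  unfold ent
  rw [Matrix.SpecialLinearGroup.coe_mul, Matrix.mul_apply, Fin.sum_univ_three]

theorem ent_one (i j : Fin 3) : ent 1 i j = if i = j then 1 else 0 := by
  unfold ent
  rw [Matrix.SpecialLinearGroup.coe_one, Matrix.one_apply]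

theorem ent_det (g : SL3) : ent g 0 0 * ent g 1 1 * ent g 2 2 - ent g 0 0 * ent g 1 2 * ent g 2 1 -
    ent g 0 1 * ent g 1 0 * ent g 2 2 + ent g 0 1 * ent g 1 2 * ent g 2 0 +
    ent g 0 2 * ent g 1 0 * ent g 2 1 - ent g 0 2 * ent g 1 1 * ent g 2 0 = 1 := by
  have h := g.det_coe
  rw [Matrix.det_fin_three] at h
  exact h

theorem ent_X (i j : Fin 3) (h : i ≠ j) (s : ℤ) (k l : Fin 3) :
    ent (X i j s) k l = (if k = l then 1 else 0) + (if k = i ∧ l = j then s else 0) := by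
  unfold X ent
  rw [dif_pos h]
  show (Matrix.transvection i j s) k l = _
  unfold Matrix.transvection
  rw [Matrix.add_apply, Matrix.one_apply, Matrix.single_apply]
  congr 1
  by_cases h1 : k = i ∧ l = j
  · obtain ⟨rfl, rfl⟩ := h1
    simp
  · rw [if_neg h1, if_neg]
    rintro ⟨rfl, rfl⟩
    exact h1 ⟨rfl, rfl⟩

theorem X_zero (i j : Fin 3) : X i j 0 = 1 := by
  unfold X
  split_ifs <;> simp

theorem X_add (i j : Fin 3) (s t : ℤ) : X i j (s + t) = X i j s * X i j t := by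
  unfold X
  split_ifs with h
  · exact SpecialLinearGroup.transvection_add h s t
  · simp

theorem X_inv (i j : Fin 3) (s : ℤ) : (X i j s)⁻¹ = X i j (-s) := by
  have h := X_add i j s (-s)
  rw [add_neg_cancel, X_zero] at h
  exact inv_eq_of_mul_eq_one_right h.symm

theorem X_zpow (i j : Fin 3) (s n : ℤ) : X i j s ^ n = X i j (n * s) := by
  induction n using Int.induction_on with
  | zero => simp [X_zero]
  | succ n ih => rw [_root_.zpow_add_one, ih, ← X_add]; congr 1; ring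
  | pred n ih => rw [_root_.zpow_sub_one, ih, X_inv, ← X_add]; congr 1; ring

theorem X_row (i j l : Fin 3) (hij : i ≠ j) (hil : i ≠ l) (s t : ℤ) :
    X i j s * X i l t = X i l t * X i j s := by
  apply ent_ext
  intro k m
  simp only [ent_mul, ent_X i j hij, ent_X i l hil]
  fin_cases i <;> fin_cases j <;> fin_cases l <;> fin_cases k <;> fin_cases m <;>
    simp_all [add_comm]

theorem X_col (i j l : Fin 3) (hij : i ≠ j) (hlj : l ≠ j) (s t : ℤ) :
    X i j s * X l j t = X l j t * X i j s := by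
  apply ent_ext
  intro k m
  simp only [ent_mul, ent_X i j hij, ent_X l j hlj]
  fin_cases i <;> fin_cases j <;> fin_cases l <;> fin_cases k <;> fin_cases m <;>
    simp_all [add_comm]

theorem X_pent (i j l : Fin 3) (hij : i ≠ j) (hjl : j ≠ l) (hil : i ≠ l) (s t : ℤ) :
    X i j s * X j l t = X j l t * X i j s * X i l (s * t) := by
  apply ent_ext
  intro k m
  simp only [ent_mul, ent_X i j hij, ent_X j l hjl, ent_X i l hil]
  fin_cases i <;> fin_cases j <;> fin_cases l <;> fin_cases k <;> fin_cases m <;>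
    simp_all [add_comm]

/-- entries of `2 × 2` matrices -/
def ent2 (g : SpecialLinearGroup (Fin 2) ℤ) (i j : Fin 2) : ℤ :=
  (g : Matrix (Fin 2) (Fin 2) ℤ) i j

theorem ent2_mul (g h : SpecialLinearGroup (Fin 2) ℤ) (i j : Fin 2) :
    ent2 (g * h) i j = ent2 g i 0 * ent2 h 0 j + ent2 g i 1 * ent2 h 1 j := by
  unfold ent2
  rw [Matrix.SpecialLinearGroup.coe_mul, Matrix.mul_apply, Fin.sum_univ_two]

theorem ent2_one (i j : Fin 2) : ent2 1 i j = if i = j then 1 else 0 := by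
  unfold ent2
  rw [Matrix.SpecialLinearGroup.coe_one, Matrix.one_apply]

theorem ent2_det (g : SpecialLinearGroup (Fin 2) ℤ) :
    ent2 g 0 0 * ent2 g 1 1 - ent2 g 0 1 * ent2 g 1 0 = 1 := by
  have h := g.det_coe
  rw [Matrix.det_fin_two] at h
  exact h

/-- build an element of `SL₂` -/
def mk2 (a b c d : ℤ) (h : a * d - b * c = 1) : SpecialLinearGroup (Fin 2) ℤ :=
  ⟨!![a, b; c, d], by rw [Matrix.det_fin_two]; simpa using h⟩

theorem ent2_mk2 (a b c d : ℤ) (h : a * d - b * c = 1) :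
    ent2 (mk2 a b c d h) 0 0 = a ∧ ent2 (mk2 a b c d h) 0 1 = b ∧
    ent2 (mk2 a b c d h) 1 0 = c ∧ ent2 (mk2 a b c d h) 1 1 = d :=
  ⟨rfl, rfl, rfl, rfl⟩

/-- block embedding of `SL₂` in the lower right corner -/
def blk (h : SpecialLinearGroup (Fin 2) ℤ) : SL3 :=
  ⟨!![1, 0, 0; 0, ent2 h 0 0, ent2 h 0 1; 0, ent2 h 1 0, ent2 h 1 1], by
    have := ent2_det h
    rw [Matrix.det_fin_three]
    simp
    linarith⟩

theorem ent_blk (h : SpecialLinearGroup (Fin 2) ℤ) (i j : Fin 3) :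
    ent (blk h) i j =
      (!![1, 0, 0; 0, ent2 h 0 0, ent2 h 0 1; 0, ent2 h 1 0, ent2 h 1 1] :
        Matrix (Fin 3) (Fin 3) ℤ) i j := rfl

theorem blk_mul (g h : SpecialLinearGroup (Fin 2) ℤ) : blk (g * h) = blk g * blk h := by
  apply ent_ext
  intro k m
  simp only [ent_mul, ent_blk]
  fin_cases k <;> fin_cases m <;> simp [ent2_mul]

theorem blk_one : blk 1 = 1 := by
  apply ent_ext
  intro k m
  simp only [ent_one, ent_blk]
  fin_cases k <;> fin_cases m <;> simp [ent2_one]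

/-- block embedding as a homomorphism -/
def blkHom : SpecialLinearGroup (Fin 2) ℤ →* SL3 where
  toFun := blk
  map_one' := blk_one
  map_mul' := blk_mul

theorem ent2_T : ent2 ModularGroup.T 0 0 = 1 ∧ ent2 ModularGroup.T 0 1 = 1 ∧
    ent2 ModularGroup.T 1 0 = 0 ∧ ent2 ModularGroup.T 1 1 = 1 := ⟨rfl, rfl, rfl, rfl⟩

theorem ent2_S : ent2 ModularGroup.S 0 0 = 0 ∧ ent2 ModularGroup.S 0 1 = -1 ∧
    ent2 ModularGroup.S 1 0 = 1 ∧ ent2 ModularGroup.S 1 1 = 0 := ⟨rfl, rfl, rfl, rfl⟩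

theorem blk_T : blk ModularGroup.T = X 1 2 1 := by
  obtain ⟨h1, h2, h3, h4⟩ := ent2_T
  apply ent_ext
  intro k m
  simp only [ent_X 1 2 (by decide), ent_blk, h1, h2, h3, h4]
  fin_cases k <;> fin_cases m <;> simp

theorem blk_S : blk ModularGroup.S = X 1 2 (-1) * X 2 1 1 * X 1 2 (-1) := by
  obtain ⟨h1, h2, h3, h4⟩ := ent2_S
  apply ent_ext
  intro k m
  simp only [ent_mul, ent_X 1 2 (by decide), ent_X 2 1 (by decide), ent_blk, h1, h2, h3, h4]
  fin_cases k <;> fin_cases m <;> simp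

/-- The generating set of `Γ₁(N)`. -/
def gens (N : ℤ) : Set SL3 := {X 0 1 1, X 0 2 1, X 1 2 1, X 2 1 1, X 1 0 N, X 2 0 N}

theorem mem_closure_X (N : ℤ) (i j : Fin 3) (s : ℤ) (h : X i j 1 ∈ gens N) :
    X i j s ∈ Subgroup.closure (gens N) := by
  have := Subgroup.zpow_mem _ (Subgroup.subset_closure h) s
  rwa [X_zpow, mul_one] at this

theorem mem_closure_XN (N : ℤ) (i j : Fin 3) (s : ℤ) (h : X i j N ∈ gens N) (hs : N ∣ s) :
    X i j s ∈ Subgroup.closure (gens N) := by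
  obtain ⟨k, rfl⟩ := hs
  have := Subgroup.zpow_mem _ (Subgroup.subset_closure h) k
  rwa [X_zpow, mul_comm] at this

theorem blk_mem (N : ℤ) (h : SpecialLinearGroup (Fin 2) ℤ) :
    blk h ∈ Subgroup.closure (gens N) := by
  have h1 : h ∈ Subgroup.closure {ModularGroup.S, ModularGroup.T} := by
    rw [SpecialLinearGroup.SL2Z_generators]; trivial
  have h2 : blkHom h ∈ (Subgroup.closure {ModularGroup.S, ModularGroup.T}).map blkHom :=
    Subgroup.mem_map_of_mem _ h1
  rw [MonoidHom.map_closure] at h2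
  have h3 : Subgroup.closure (blkHom '' {ModularGroup.S, ModularGroup.T}) ≤
      Subgroup.closure (gens N) := by
    rw [Subgroup.closure_le]
    rintro _ ⟨y, hy, rfl⟩
    have m12 : ∀ s, X 1 2 s ∈ Subgroup.closure (gens N) := fun s =>
      mem_closure_X N 1 2 s (by simp [gens])
    have m21 : ∀ s, X 2 1 s ∈ Subgroup.closure (gens N) := fun s =>
      mem_closure_X N 2 1 s (by simp [gens])
    rcases hy with rfl | rfl
    · show blk ModularGroup.S ∈ Subgroup.closure (gens N)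
      rw [blk_S]
      exact Subgroup.mul_mem _ (Subgroup.mul_mem _ (m12 _) (m21 _)) (m12 _)
    · show blk ModularGroup.T ∈ Subgroup.closure (gens N)
      rw [blk_T]
      exact m12 _
  exact h3 h2

theorem exists_sl2 (b c : ℤ) : ∃ h : SpecialLinearGroup (Fin 2) ℤ, ∃ d : ℤ,
    ent2 h 0 0 * b + ent2 h 0 1 * c = d ∧ ent2 h 1 0 * b + ent2 h 1 1 * c = 0 ∧
      ∀ N : ℤ, N ∣ b → N ∣ c → N ∣ d := by
  by_cases h0 : b = 0 ∧ c = 0
  · obtain ⟨rfl, rfl⟩ := h0
    exact ⟨1, 0, by simp, by simp, by simp⟩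
  · have hd : (Int.gcd b c : ℤ) ≠ 0 := by
      intro h
      have : Int.gcd b c = 0 := by exact_mod_cast h
      rw [Int.gcd_eq_zero_iff] at this
      exact h0 this
    obtain ⟨b', hb'⟩ : (Int.gcd b c : ℤ) ∣ b := Int.gcd_dvd_left b c
    obtain ⟨c', hc'⟩ : (Int.gcd b c : ℤ) ∣ c := Int.gcd_dvd_right b c
    have hbez := Int.gcd_eq_gcd_ab b c
    set u := Int.gcdA b c
    set v := Int.gcdB b c
    have key : ∀ d : ℤ, d ≠ 0 → b = d * b' → c = d * c' → d = b * u + c * v →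
        b' * u + c' * v = 1 := by
      intro d hd e1 e2 e3
      have : d * (b' * u + c' * v) = d * 1 := by
        rw [mul_one]
        calc d * (b' * u + c' * v) = (d * b') * u + (d * c') * v := by ring
          _ = b * u + c * v := by rw [← e1, ← e2]
          _ = d := e3.symm
      exact mul_left_cancel₀ hd this
    have h1 := key _ hd hb' hc' hbez
    obtain ⟨m1, m2, m3, m4⟩ := ent2_mk2 u v (-c') b' (by linarith)
    refine ⟨mk2 u v (-c') b' (by linarith), (Int.gcd b c : ℤ), ?_, ?_, ?_⟩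
    · rw [m1, m2]
      linarith
    · rw [m3, m4]
      have key2 : ∀ d : ℤ, b = d * b' → c = d * c' → -c' * b + b' * c = 0 := by
        intro d e1 e2
        rw [e1, e2]; ring
      exact key2 _ hb' hc'
    · intro N hb hc
      exact Int.dvd_coe_gcd hb hc

theorem gen1 (N : ℤ) (η : SL3) (h0 : N ∣ ent η 0 0 - 1) (h1 : N ∣ ent η 1 0)
    (h2 : N ∣ ent η 2 0) : η ∈ Subgroup.closure (gens N) := by
  have m01 : ∀ s, X 0 1 s ∈ Subgroup.closure (gens N) := fun s =>
    mem_closure_X N 0 1 s (by simp [gens])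
  have m02 : ∀ s, X 0 2 s ∈ Subgroup.closure (gens N) := fun s =>
    mem_closure_X N 0 2 s (by simp [gens])
  have m21 : ∀ s, X 2 1 s ∈ Subgroup.closure (gens N) := fun s =>
    mem_closure_X N 2 1 s (by simp [gens])
  have m10 : ∀ s, N ∣ s → X 1 0 s ∈ Subgroup.closure (gens N) := fun s =>
    mem_closure_XN N 1 0 s (by simp [gens])
  have m20 : ∀ s, N ∣ s → X 2 0 s ∈ Subgroup.closure (gens N) := fun s =>
    mem_closure_XN N 2 0 s (by simp [gens])
  obtain ⟨h, d, hd1, hd2, hd3⟩ := exists_sl2 (ent η 1 0) (ent η 2 0)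
  have hNd : N ∣ d := hd3 N h1 h2
  obtain ⟨η1, hη1⟩ : ∃ η1, η1 = blk h * η := ⟨_, rfl⟩
  have e00 : ent η1 0 0 = ent η 0 0 := by
    simp [hη1, ent_mul, ent_blk]
  have e10 : ent η1 1 0 = d := by
    rw [← hd1]
    simp [hη1, ent_mul, ent_blk]
  have e20 : ent η1 2 0 = 0 := by
    rw [← hd2]
    simp [hη1, ent_mul, ent_blk]
  have hdet := ent_det η1
  rw [e20, e10, e00] at hdet
  obtain ⟨q, hq⟩ := h0
  obtain ⟨a, ha⟩ : ∃ a, a = ent η 0 0 := ⟨_, rfl⟩
  rw [← ha] at hdet hq e00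
  obtain ⟨p, hp⟩ : ∃ p, p = ent η1 1 1 * ent η1 2 2 - ent η1 1 2 * ent η1 2 1 := ⟨_, rfl⟩
  obtain ⟨r, hr⟩ : ∃ r, r = - (ent η1 0 1 * ent η1 2 2 - ent η1 0 2 * ent η1 2 1) := ⟨_, rfl⟩
  have hbez : p * a + r * d = 1 := by rw [hp, hr]; linarith
  obtain ⟨η2, hη2⟩ : ∃ η2, η2 = X 2 0 (N * (q * p)) * (X 2 1 (N * q * r) * η1) := ⟨_, rfl⟩
  have f00 : ent η2 0 0 = a := by
    simp [hη2, ent_mul, ent_X 2 0 (by decide), ent_X 2 1 (by decide), e00]
  have f10 : ent η2 1 0 = d := by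
    simp [hη2, ent_mul, ent_X 2 0 (by decide), ent_X 2 1 (by decide), e10]
  have f20 : ent η2 2 0 = a - 1 := by
    have : ent η2 2 0 = N * (q * p) * a + N * q * r * d := by
      simp [hη2, ent_mul, ent_X 2 0 (by decide), ent_X 2 1 (by decide), e10, e20, e00]
    rw [this, hq]
    calc N * (q * p) * a + N * q * r * d = N * q * (p * a + r * d) := by ring
      _ = N * q := by rw [hbez, mul_one]
  obtain ⟨η3, hη3⟩ : ∃ η3, η3 = X 0 2 (-1) * η2 := ⟨_, rfl⟩
  have g00 : ent η3 0 0 = 1 := by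
    have : ent η3 0 0 = a - (a - 1) := by
      simp [hη3, ent_mul, ent_X 0 2 (by decide), f00, f20]
    rw [this]; ring
  have g10 : ent η3 1 0 = d := by
    simp [hη3, ent_mul, ent_X 0 2 (by decide), f10]
  have g20 : ent η3 2 0 = a - 1 := by
    simp [hη3, ent_mul, ent_X 0 2 (by decide), f20]
  obtain ⟨η4, hη4⟩ : ∃ η4, η4 = X 1 0 (-d) * (X 2 0 (-(a - 1)) * η3) := ⟨_, rfl⟩
  have k00 : ent η4 0 0 = 1 := by
    simp [hη4, ent_mul, ent_X 1 0 (by decide), ent_X 2 0 (by decide), g00]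
  have k10 : ent η4 1 0 = 0 := by
    simp [hη4, ent_mul, ent_X 1 0 (by decide), ent_X 2 0 (by decide), g10, g00]
  have k20 : ent η4 2 0 = 0 := by
    simp [hη4, ent_mul, ent_X 1 0 (by decide), ent_X 2 0 (by decide), g20, g00]
  have hdet4 := ent_det η4
  rw [k00, k10, k20] at hdet4
  obtain ⟨n1, n2, n3, n4⟩ := ent2_mk2 (ent η4 1 1) (ent η4 1 2) (ent η4 2 1) (ent η4 2 2)
    (by linarith)
  have h4 : η4 = blk (mk2 (ent η4 1 1) (ent η4 1 2) (ent η4 2 1) (ent η4 2 2) (by linarith)) *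
      (X 0 1 (ent η4 0 1) * X 0 2 (ent η4 0 2)) := by
    apply ent_ext
    intro k m
    simp only [ent_mul, ent_blk, ent_X 0 1 (by decide), ent_X 0 2 (by decide), n1, n2, n3, n4]
    fin_cases k <;> fin_cases m <;> simp [k00, k10, k20]
  have hm4 : η4 ∈ Subgroup.closure (gens N) := by
    rw [h4]
    exact Subgroup.mul_mem _ (blk_mem N _) (Subgroup.mul_mem _ (m01 _) (m02 _))
  have hna : N ∣ (a - 1) := ⟨q, hq⟩
  have hm3 : η3 ∈ Subgroup.closure (gens N) := by
    rw [hη4] at hm4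
    have h5 : X 2 0 (-(a - 1)) * η3 ∈ Subgroup.closure (gens N) :=
      (Subgroup.mul_mem_cancel_left _ (m10 (-d) (by simpa using hNd))).1 hm4
    exact (Subgroup.mul_mem_cancel_left _ (m20 _ ((dvd_neg).2 hna))).1 h5
  have hm2 : η2 ∈ Subgroup.closure (gens N) := by
    rw [hη3] at hm3
    exact (Subgroup.mul_mem_cancel_left _ (m02 (-1))).1 hm3
  have hm1 : η1 ∈ Subgroup.closure (gens N) := by
    rw [hη2] at hm2
    have h5 : X 2 1 (N * q * r) * η1 ∈ Subgroup.closure (gens N) :=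
      (Subgroup.mul_mem_cancel_left _ (m20 _ (Dvd.intro _ rfl))).1 hm2
    exact (Subgroup.mul_mem_cancel_left _ (m21 _)).1 h5
  rw [hη1] at hm1
  exact (Subgroup.mul_mem_cancel_left _ (blk_mem N h)).1 hm1

/-- The six elementary matrices generate. -/
theorem gen_top : Subgroup.closure {g : SL3 | ∃ i j, i ≠ j ∧ g = X i j 1} = ⊤ := by
  rw [eq_top_iff]
  intro η _
  have h1 := gen1 1 η (one_dvd _) (one_dvd _) (one_dvd _)
  refine Subgroup.closure_mono ?_ h1
  intro g hg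
  simp only [gens, Set.mem_insert_iff, Set.mem_singleton_iff] at hg
  rcases hg with rfl | rfl | rfl | rfl | rfl | rfl
  · exact ⟨0, 1, by decide, rfl⟩
  · exact ⟨0, 2, by decide, rfl⟩
  · exact ⟨1, 2, by decide, rfl⟩
  · exact ⟨2, 1, by decide, rfl⟩
  · exact ⟨1, 0, by decide, rfl⟩
  · exact ⟨2, 0, by decide, rfl⟩

end Pool.Agent.N659.IRP
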