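import Mathlib
import Pool.Agent.N659.IRP.Group

set_option autoImplicit false

/-!
The action of `SL₃(ℤ)` on `ℤ₂³`, congruences, and connectedness of the nets.
-/

namespace Pool.Agent.N659.IRP

/-- the action on vectors over a commutative ring -/
def act {R : Type*} [CommRing R] (g : SL3) (c : Fin 3 → R) : Fin 3 → R := fun i =>
  (ent g i 0 : R) * c 0 + (ent g i 1 : R) * c 1 + (ent g i 2 : R) * c 2

section act

variable {R : Type*} [CommRing R]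

theorem act_one (c : Fin 3 → R) : act 1 c = c := by
  funext i
  simp only [act, ent_one]
  fin_cases i <;> simp

theorem act_mul (g h : SL3) (c : Fin 3 → R) : act (g * h) c = act g (act h c) := by
  funext i
  simp only [act, ent_mul]
  push_cast
  ring

theorem act_X (i j : Fin 3) (hij : i ≠ j) (s : ℤ) (c : Fin 3 → R) (k : Fin 3) :
    act (X i j s) c k = c k + (if k = i then (s : R) * c j else 0) := by
  simp only [act, ent_X i j hij]
  fin_cases i <;> fin_cases j <;> fin_cases k <;> simp_all <;> ring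

theorem act_add (g : SL3) (c d : Fin 3 → R) : act g (c + d) = act g c + act g d := by
  funext i
  simp only [act, Pi.add_apply]
  ring

theorem act_sub (g : SL3) (c d : Fin 3 → R) (i : Fin 3) :
    act g c i - act g d i = act g (fun k => c k - d k) i := by
  simp only [act]
  ring

theorem act_cast (g : SL3) (t : Fin 3 → ℤ) (i : Fin 3) :
    act g (fun k => (t k : R)) i = ((act g t i : ℤ) : R) := by
  simp only [act]
  push_cast
  rfl

theorem act_dvd (g : SL3) (c : Fin 3 → R) (r : R) (h : ∀ k, r ∣ c k) (i : Fin 3) :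
    r ∣ act g c i := by
  simp only [act]
  exact dvd_add (dvd_add ((h 0).mul_left _) ((h 1).mul_left _)) ((h 2).mul_left _)

end act

/-- the 2-adic integers -/
abbrev Z2 := ℤ_[2]

/-- the coordinate of `x` seen from `g` -/
noncomputable def cc (x : Fin 3 → Z2) (g : SL3) : Fin 3 → Z2 := act g⁻¹ x

theorem cc_mul (x : Fin 3 → Z2) (g h : SL3) : cc x (g * h) = act h⁻¹ (cc x g) := by
  unfold cc
  rw [mul_inv_rev, act_mul]

theorem cc_X (x : Fin 3 → Z2) (g : SL3) (i j : Fin 3) (hij : i ≠ j) (s : ℤ) (k : Fin 3) :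
    cc x (g * X i j s) k = cc x g k - (if k = i then (s : Z2) * cc x g j else 0) := by
  rw [cc_mul, X_inv, act_X i j hij]
  split_ifs
  · push_cast; ring
  · ring

/-- congruence modulo `2^n` with an integer vector -/
def Cong (n : ℕ) (c : Fin 3 → Z2) (t : Fin 3 → ℤ) : Prop := ∀ k, (2 : Z2) ^ n ∣ c k - (t k : Z2)

theorem dvd_int_cast {n : ℕ} {z : ℤ} (h : (2 : ℤ) ^ n ∣ z) : (2 : Z2) ^ n ∣ (z : Z2) := by
  obtain ⟨w, rfl⟩ := h
  exact ⟨(w : Z2), by push_cast; ring⟩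

theorem dvd_int_of_cast {n : ℕ} {z : ℤ} (h : (2 : Z2) ^ n ∣ (z : Z2)) : (2 : ℤ) ^ n ∣ z := by
  have := (PadicInt.pow_p_dvd_int_iff (p := 2) n z).1 (by exact_mod_cast h)
  exact_mod_cast this

theorem Cong.act {n : ℕ} {c : Fin 3 → Z2} {t : Fin 3 → ℤ} (h : Cong n c t) (g : SL3) :
    Cong n (act g c) (act g t) := by
  intro k
  rw [← act_cast, act_sub]
  exact act_dvd g _ _ h k

theorem Cong.mono {m n : ℕ} (hmn : m ≤ n) {c : Fin 3 → Z2} {t : Fin 3 → ℤ} (h : Cong n c t) :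
    Cong m c t := fun k => (pow_dvd_pow _ hmn).trans (h k)

theorem cong_X {x : Fin 3 → Z2} {n : ℕ} {g : SL3} {t t' : Fin 3 → ℤ} (h : Cong n (cc x g) t)
    (i j : Fin 3) (hij : i ≠ j) (s : ℤ)
    (ht : ∀ k, (2 : ℤ) ^ n ∣ (t k - (if k = i then s * t j else 0)) - t' k) :
    Cong n (cc x (g * X i j s)) t' := by
  intro k
  rw [cc_X x g i j hij]
  have h1 := h k
  have h2 := h j
  have h3 := dvd_int_cast (ht k)
  split_ifs at h3 ⊢ with hk
  · have : cc x g k - (s : Z2) * cc x g j - (t' k : Z2) =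
        (cc x g k - (t k : Z2)) - (s : Z2) * (cc x g j - (t j : Z2)) +
          ((t k - s * t j - t' k : ℤ) : Z2) := by push_cast; ring
    rw [this]
    exact dvd_add (dvd_sub h1 (h2.mul_left _)) h3
  · have : cc x g k - 0 - (t' k : Z2) = (cc x g k - (t k : Z2)) + ((t k - 0 - t' k : ℤ) : Z2) := by
      push_cast; ring
    rw [this]
    exact dvd_add h1 h3

/-- step set -/
def S0 : Set SL3 := {s | s = 1 ∨ ∃ i j, i ≠ j ∧ (s = X i j 1 ∨ s = X i j (-1))}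

theorem S0_inv {s : SL3} (h : s ∈ S0) : s⁻¹ ∈ S0 := by
  rcases h with rfl | ⟨i, j, hij, rfl | rfl⟩
  · left; simp
  · right; exact ⟨i, j, hij, Or.inr (X_inv i j 1)⟩
  · right; exact ⟨i, j, hij, Or.inl (by rw [X_inv]; simp)⟩

theorem S0_one : (1 : SL3) ∈ S0 := Or.inl rfl

theorem S0_X (i j : Fin 3) (hij : i ≠ j) : X i j 1 ∈ S0 := Or.inr ⟨i, j, hij, Or.inl rfl⟩

theorem S0_X' (i j : Fin 3) (hij : i ≠ j) : X i j (-1) ∈ S0 := Or.inr ⟨i, j, hij, Or.inr rfl⟩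

/-- the net vectors of parameter `m` (modulus `2^(2m)`) -/
def netF (m : ℕ) : Finset (Fin 3 → ℤ) :=
  (Finset.range (2 ^ m + 1)).biUnion fun r =>
    {![1, 0, -(r : ℤ)], ![1, -((r : ℤ) * 2 ^ m), -2 ^ m], ![1, -(r : ℤ), 0],
      ![1, -2 ^ m, -((r : ℤ) * 2 ^ m)]}

theorem netF_card (m : ℕ) : (netF m).card ≤ 4 * (2 ^ m + 1) := by
  unfold netF
  refine (Finset.card_biUnion_le).trans ?_
  refine (Finset.sum_le_card_nsmul _ _ 4 ?_).trans ?_
  · intro r _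
    exact Finset.card_le_four
  · simp [mul_comm]

theorem netA {m r : ℕ} (hr : r ≤ 2 ^ m) : (![1, 0, -(r : ℤ)] : Fin 3 → ℤ) ∈ netF m := by
  unfold netF
  rw [Finset.mem_biUnion]
  exact ⟨r, Finset.mem_range.2 (by omega), by simp⟩

theorem netB {m r : ℕ} (hr : r ≤ 2 ^ m) :
    (![1, -((r : ℤ) * 2 ^ m), -2 ^ m] : Fin 3 → ℤ) ∈ netF m := by
  unfold netF
  rw [Finset.mem_biUnion]
  exact ⟨r, Finset.mem_range.2 (by omega), by simp⟩

theorem netC {m r : ℕ} (hr : r ≤ 2 ^ m) : (![1, -(r : ℤ), 0] : Fin 3 → ℤ) ∈ netF m := by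
  unfold netF
  rw [Finset.mem_biUnion]
  exact ⟨r, Finset.mem_range.2 (by omega), by simp⟩

theorem netD {m r : ℕ} (hr : r ≤ 2 ^ m) :
    (![1, -2 ^ m, -((r : ℤ) * 2 ^ m)] : Fin 3 → ℤ) ∈ netF m := by
  unfold netF
  rw [Finset.mem_biUnion]
  exact ⟨r, Finset.mem_range.2 (by omega), by simp⟩

/-- the net -/
def net (x : Fin 3 → Z2) (m : ℕ) : Set SL3 := {g | ∃ t ∈ netF m, Cong (2 * m) (cc x g) t}

section conn

variable {x : Fin 3 → Z2} {m : ℕ} {W : Set SL3} {P : SL3 → Prop}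

theorem P_iff_step (hP : ∀ g ∈ W, ∀ s ∈ S0, g * s ∈ W → P g → P (g * s)) {g s : SL3}
    (hs : s ∈ S0) (hg : g ∈ W) (hgs : g * s ∈ W) : P g ↔ P (g * s) := by
  constructor
  · exact hP g hg s hs hgs
  · intro h
    have := hP (g * s) hgs s⁻¹ (S0_inv hs) (by simpa using hg) h
    simpa using this

theorem walk (hP : ∀ g ∈ W, ∀ s ∈ S0, g * s ∈ W → P g → P (g * s)) (i j : Fin 3) (hij : i ≠ j)
    (ε : ℤ) (hε : ε = 1 ∨ ε = -1) (n : ℕ) (g : SL3)
    (h : ∀ r : ℕ, r ≤ n → g * X i j (ε * r) ∈ W) : P g ↔ P (g * X i j (ε * n)) := by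
  induction n with
  | zero => simp [X_zero]
  | succ n ih =>
    rw [ih (fun r hr => h r (by omega))]
    have h1 : g * X i j (ε * ((n + 1 : ℕ) : ℤ)) = g * X i j (ε * n) * X i j ε := by
      rw [mul_assoc, ← X_add]; push_cast; congr 2; ring
    have hs : X i j ε ∈ S0 := by
      rcases hε with rfl | rfl
      · exact S0_X i j hij
      · exact S0_X' i j hij
    have h2 := h (n + 1) le_rfl
    rw [h1] at h2 ⊢
    exact P_iff_step hP hs (h n (by omega)) h2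

theorem caseA (hW : net x m ⊆ W) (hP : ∀ g ∈ W, ∀ s ∈ S0, g * s ∈ W → P g → P (g * s))
    (g : SL3) (r : ℕ) (hr : r ≤ 2 ^ m) (h : Cong (2 * m) (cc x g) ![1, 0, -(r : ℤ)]) :
    ∃ g', Cong (2 * m) (cc x g') ![1, 0, 0] ∧ (P g ↔ P g') := by
  have key : ∀ r' : ℕ, r' ≤ r →
      Cong (2 * m) (cc x (g * X 2 0 (-1 * r'))) ![1, 0, -((r - r' : ℕ) : ℤ)] := by
    intro r' hr'
    refine cong_X h 2 0 (by decide) _ ?_
    intro k
    have e : ((r - r' : ℕ) : ℤ) = (r : ℤ) - r' := by push_cast [hr']; ring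
    rw [e]
    fin_cases k <;> simp <;> exact ⟨0, by ring⟩
  refine ⟨g * X 2 0 (-1 * r), ?_, ?_⟩
  · have := key r le_rfl
    simpa using this
  · refine walk hP 2 0 (by decide) (-1) (Or.inr rfl) r g ?_
    intro r' hr'
    exact hW ⟨_, netA (by omega), key r' hr'⟩

theorem caseC (hW : net x m ⊆ W) (hP : ∀ g ∈ W, ∀ s ∈ S0, g * s ∈ W → P g → P (g * s))
    (g : SL3) (r : ℕ) (hr : r ≤ 2 ^ m) (h : Cong (2 * m) (cc x g) ![1, -(r : ℤ), 0]) :
    ∃ g', Cong (2 * m) (cc x g') ![1, 0, 0] ∧ (P g ↔ P g') := by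
  have key : ∀ r' : ℕ, r' ≤ r →
      Cong (2 * m) (cc x (g * X 1 0 (-1 * r'))) ![1, -((r - r' : ℕ) : ℤ), 0] := by
    intro r' hr'
    refine cong_X h 1 0 (by decide) _ ?_
    intro k
    have e : ((r - r' : ℕ) : ℤ) = (r : ℤ) - r' := by push_cast [hr']; ring
    rw [e]
    fin_cases k <;> simp <;> exact ⟨0, by ring⟩
  refine ⟨g * X 1 0 (-1 * r), ?_, ?_⟩
  · have := key r le_rfl
    simpa using this
  · refine walk hP 1 0 (by decide) (-1) (Or.inr rfl) r g ?_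
    intro r' hr'
    exact hW ⟨_, netC (by omega), key r' hr'⟩

theorem caseB (hW : net x m ⊆ W) (hP : ∀ g ∈ W, ∀ s ∈ S0, g * s ∈ W → P g → P (g * s))
    (g : SL3) (r : ℕ) (hr : r ≤ 2 ^ m)
    (h : Cong (2 * m) (cc x g) ![1, -((r : ℤ) * 2 ^ m), -2 ^ m]) :
    ∃ g', Cong (2 * m) (cc x g') ![1, 0, 0] ∧ (P g ↔ P g') := by
  have key : ∀ r' : ℕ, r' ≤ r →
      Cong (2 * m) (cc x (g * X 1 2 (1 * r')))
        ![1, -(((r - r' : ℕ) : ℤ) * 2 ^ m), -2 ^ m] := by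
    intro r' hr'
    refine cong_X h 1 2 (by decide) _ ?_
    intro k
    have e : ((r - r' : ℕ) : ℤ) = (r : ℤ) - r' := by push_cast [hr']; ring
    rw [e]
    fin_cases k
    · simp
    · simp
      ring_nf
      simp
    · simp
  have h1 : Cong (2 * m) (cc x (g * X 1 2 (1 * r))) ![1, 0, -((2 ^ m : ℕ) : ℤ)] := by
    have := key r le_rfl
    simpa using this
  obtain ⟨g', hg', h2⟩ := caseA hW hP _ (2 ^ m) le_rfl h1
  refine ⟨g', hg', ?_⟩
  rw [← h2]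
  refine walk hP 1 2 (by decide) 1 (Or.inl rfl) r g ?_
  intro r' hr'
  exact hW ⟨_, netB (by omega), key r' hr'⟩

theorem caseD (hW : net x m ⊆ W) (hP : ∀ g ∈ W, ∀ s ∈ S0, g * s ∈ W → P g → P (g * s))
    (g : SL3) (r : ℕ) (hr : r ≤ 2 ^ m)
    (h : Cong (2 * m) (cc x g) ![1, -2 ^ m, -((r : ℤ) * 2 ^ m)]) :
    ∃ g', Cong (2 * m) (cc x g') ![1, 0, 0] ∧ (P g ↔ P g') := by
  have key : ∀ r' : ℕ, r' ≤ r →
      Cong (2 * m) (cc x (g * X 2 1 (1 * r')))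
        ![1, -2 ^ m, -(((r - r' : ℕ) : ℤ) * 2 ^ m)] := by
    intro r' hr'
    refine cong_X h 2 1 (by decide) _ ?_
    intro k
    have e : ((r - r' : ℕ) : ℤ) = (r : ℤ) - r' := by push_cast [hr']; ring
    rw [e]
    fin_cases k
    · simp
    · simp
    · simp
      ring_nf
      simp
  have h1 : Cong (2 * m) (cc x (g * X 2 1 (1 * r))) ![1, -((2 ^ m : ℕ) : ℤ), 0] := by
    have := key r le_rfl
    simpa using this
  obtain ⟨g', hg', h2⟩ := caseC hW hP _ (2 ^ m) le_rfl h1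
  refine ⟨g', hg', ?_⟩
  rw [← h2]
  refine walk hP 2 1 (by decide) 1 (Or.inl rfl) r g ?_
  intro r' hr'
  exact hW ⟨_, netD (by omega), key r' hr'⟩

theorem to_e1 (hW : net x m ⊆ W) (hP : ∀ g ∈ W, ∀ s ∈ S0, g * s ∈ W → P g → P (g * s))
    (g : SL3) (hg : g ∈ net x m) :
    ∃ g', Cong (2 * m) (cc x g') ![1, 0, 0] ∧ (P g ↔ P g') := by
  obtain ⟨t, ht, hc⟩ := hg
  unfold netF at ht
  rw [Finset.mem_biUnion] at ht
  obtain ⟨r, hr, ht⟩ := ht
  have hr' : r ≤ 2 ^ m := by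
    have := Finset.mem_range.1 hr
    omega
  simp only [Finset.mem_insert, Finset.mem_singleton] at ht
  rcases ht with rfl | rfl | rfl | rfl
  · exact caseA hW hP g r hr' hc
  · exact caseB hW hP g r hr' hc
  · exact caseC hW hP g r hr' hc
  · exact caseD hW hP g r hr' hc

theorem e1_mem_net (g : SL3) (h : Cong (2 * m) (cc x g) ![1, 0, 0]) : g ∈ net x m :=
  ⟨![1, 0, 0], by simpa using netA (m := m) (r := 0) (Nat.zero_le _), h⟩

/-- simple moves fixing `e₁` -/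
theorem simple_move (hW : net x m ⊆ W) (hP : ∀ g ∈ W, ∀ s ∈ S0, g * s ∈ W → P g → P (g * s))
    (i j : Fin 3) (hij : i ≠ j) (hj : j ≠ 0) (ε : ℤ) (hε : ε = 1 ∨ ε = -1)
    (g : SL3) (h : Cong (2 * m) (cc x g) ![1, 0, 0]) :
    Cong (2 * m) (cc x (g * X i j ε)) ![1, 0, 0] ∧ (P g ↔ P (g * X i j ε)) := by
  have h1 : Cong (2 * m) (cc x (g * X i j ε)) ![1, 0, 0] := by
    refine cong_X h i j hij _ ?_
    intro k
    have hz : (![1, 0, 0] : Fin 3 → ℤ) j = 0 := by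
      fin_cases j <;> simp_all
    rw [hz]
    simp
  refine ⟨h1, ?_⟩
  have hs : X i j ε ∈ S0 := by
    rcases hε with rfl | rfl
    · exact S0_X i j hij
    · exact S0_X' i j hij
  exact P_iff_step hP hs (hW (e1_mem_net g h)) (hW (e1_mem_net _ h1))

theorem long_move1 (hW : net x m ⊆ W) (hP : ∀ g ∈ W, ∀ s ∈ S0, g * s ∈ W → P g → P (g * s))
    (g : SL3) (h : Cong (2 * m) (cc x g) ![1, 0, 0]) :
    Cong (2 * m) (cc x (g * X 1 0 (2 ^ (2 * m)))) ![1, 0, 0] ∧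
      (P g ↔ P (g * X 1 0 (2 ^ (2 * m)))) := by
  set a : ℤ := 2 ^ m with ha
  have hsq : (2 : ℤ) ^ (2 * m) = a * a := by rw [ha]; ring
  have hcast : ((2 ^ m : ℕ) : ℤ) = a := by rw [ha]; push_cast; rfl
  -- first walk
  have k1 : ∀ r : ℕ, Cong (2 * m) (cc x (g * X 1 2 (1 * r))) ![1, 0, 0] := by
    intro r
    refine cong_X h 1 2 (by decide) _ ?_
    intro k
    fin_cases k <;> simp
  have w1 : P g ↔ P (g * X 1 2 (1 * ((2 ^ m : ℕ) : ℤ))) :=
    walk hP 1 2 (by decide) 1 (Or.inl rfl) (2 ^ m) g (fun r _ => hW (e1_mem_net _ (k1 r)))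
  obtain ⟨g1, hg1⟩ : ∃ g1, g1 = g * X 1 2 (1 * ((2 ^ m : ℕ) : ℤ)) := ⟨_, rfl⟩
  have h1 : Cong (2 * m) (cc x g1) ![1, 0, 0] := by rw [hg1]; exact k1 _
  rw [← hg1] at w1
  -- second walk
  have k2 : ∀ r : ℕ, Cong (2 * m) (cc x (g1 * X 2 0 (1 * r))) ![1, 0, -(r : ℤ)] := by
    intro r
    refine cong_X h1 2 0 (by decide) _ ?_
    intro k
    fin_cases k <;> simp
  have w2 : P g1 ↔ P (g1 * X 2 0 (1 * ((2 ^ m : ℕ) : ℤ))) :=
    walk hP 2 0 (by decide) 1 (Or.inl rfl) (2 ^ m) g1 (fun r hr => hW ⟨_, netA hr, k2 r⟩)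
  obtain ⟨g2, hg2⟩ : ∃ g2, g2 = g1 * X 2 0 (1 * ((2 ^ m : ℕ) : ℤ)) := ⟨_, rfl⟩
  have h2 : Cong (2 * m) (cc x g2) ![1, 0, -a] := by
    rw [hg2, ← hcast]; exact k2 _
  rw [← hg2] at w2
  -- third walk
  have k3 : ∀ r : ℕ, Cong (2 * m) (cc x (g2 * X 1 2 (-1 * r)))
      ![1, -((r : ℤ) * 2 ^ m), -2 ^ m] := by
    intro r
    refine cong_X h2 1 2 (by decide) _ ?_
    intro k
    fin_cases k <;> simp [ha]
  have w3 : P g2 ↔ P (g2 * X 1 2 (-1 * ((2 ^ m : ℕ) : ℤ))) :=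
    walk hP 1 2 (by decide) (-1) (Or.inr rfl) (2 ^ m) g2 (fun r hr => hW ⟨_, netB hr, k3 r⟩)
  obtain ⟨g3, hg3⟩ : ∃ g3, g3 = g2 * X 1 2 (-1 * ((2 ^ m : ℕ) : ℤ)) := ⟨_, rfl⟩
  have h3 : Cong (2 * m) (cc x g3) ![1, -(a * a), -a] := by
    have := k3 (2 ^ m)
    rw [hcast] at this
    rw [hg3, hcast]
    exact this
  rw [← hg3] at w3
  -- fourth walk
  have k4 : ∀ r : ℕ, r ≤ 2 ^ m → Cong (2 * m) (cc x (g3 * X 2 0 (-1 * r)))
      ![1, 0, -((2 ^ m - r : ℕ) : ℤ)] := by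
    intro r hr
    refine cong_X h3 2 0 (by decide) _ ?_
    intro k
    have e : ((2 ^ m - r : ℕ) : ℤ) = a - r := by
      rw [Nat.cast_sub hr, hcast]
    rw [e, hsq]
    fin_cases k <;> simp <;> exact ⟨0, by ring⟩
  have w4 : P g3 ↔ P (g3 * X 2 0 (-1 * ((2 ^ m : ℕ) : ℤ))) :=
    walk hP 2 0 (by decide) (-1) (Or.inr rfl) (2 ^ m) g3
      (fun r hr => hW ⟨_, netA (by omega), k4 r hr⟩)
  have h4 : Cong (2 * m) (cc x (g3 * X 2 0 (-1 * ((2 ^ m : ℕ) : ℤ)))) ![1, 0, 0] := by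
    have := k4 (2 ^ m) le_rfl
    simpa using this
  have e4 : g3 * X 2 0 (-1 * ((2 ^ m : ℕ) : ℤ)) = g * X 1 0 (2 ^ (2 * m)) := by
    rw [hg3, hg2, hg1, hsq, hcast]
    have hp := X_pent 1 2 0 (by decide) (by decide) (by decide) a a
    have : X 1 2 (1 * a) * X 2 0 (1 * a) * X 1 2 (-1 * a) * X 2 0 (-1 * a) = X 1 0 (a * a) := by
      rw [one_mul, hp]
      have c1 : X 1 0 (a * a) * X 1 2 (-1 * a) = X 1 2 (-1 * a) * X 1 0 (a * a) :=
        X_row 1 0 2 (by decide) (by decide) _ _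
      have c2 : X 1 0 (a * a) * X 2 0 (-1 * a) = X 2 0 (-1 * a) * X 1 0 (a * a) :=
        X_col 1 0 2 (by decide) (by decide) _ _
      calc X 2 0 a * X 1 2 a * X 1 0 (a * a) * X 1 2 (-1 * a) * X 2 0 (-1 * a)
          = X 2 0 a * (X 1 2 a * X 1 2 (-1 * a)) * (X 1 0 (a * a) * X 2 0 (-1 * a)) := by
            simp only [mul_assoc]
            rw [← mul_assoc (X 1 0 (a * a)) (X 1 2 (-1 * a)), c1]
            simp only [mul_assoc]
        _ = X 1 0 (a * a) := by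
            rw [← X_add, c2]
            have z : a + -1 * a = 0 := by ring
            rw [z, X_zero, mul_one, ← mul_assoc, ← X_add, z, X_zero, one_mul]
    rw [← this]
    simp only [mul_assoc]
  rw [e4] at w4 h4
  exact ⟨h4, w1.trans (w2.trans (w3.trans w4))⟩

theorem long_move2 (hW : net x m ⊆ W) (hP : ∀ g ∈ W, ∀ s ∈ S0, g * s ∈ W → P g → P (g * s))
    (g : SL3) (h : Cong (2 * m) (cc x g) ![1, 0, 0]) :
    Cong (2 * m) (cc x (g * X 2 0 (2 ^ (2 * m)))) ![1, 0, 0] ∧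
      (P g ↔ P (g * X 2 0 (2 ^ (2 * m)))) := by
  set a : ℤ := 2 ^ m with ha
  have hsq : (2 : ℤ) ^ (2 * m) = a * a := by rw [ha]; ring
  have hcast : ((2 ^ m : ℕ) : ℤ) = a := by rw [ha]; push_cast; rfl
  -- first walk
  have k1 : ∀ r : ℕ, Cong (2 * m) (cc x (g * X 2 1 (1 * r))) ![1, 0, 0] := by
    intro r
    refine cong_X h 2 1 (by decide) _ ?_
    intro k
    fin_cases k <;> simp
  have w1 : P g ↔ P (g * X 2 1 (1 * ((2 ^ m : ℕ) : ℤ))) :=
    walk hP 2 1 (by decide) 1 (Or.inl rfl) (2 ^ m) g (fun r _ => hW (e1_mem_net _ (k1 r)))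
  obtain ⟨g1, hg1⟩ : ∃ g1, g1 = g * X 2 1 (1 * ((2 ^ m : ℕ) : ℤ)) := ⟨_, rfl⟩
  have h1 : Cong (2 * m) (cc x g1) ![1, 0, 0] := by rw [hg1]; exact k1 _
  rw [← hg1] at w1
  -- second walk
  have k2 : ∀ r : ℕ, Cong (2 * m) (cc x (g1 * X 1 0 (1 * r))) ![1, -(r : ℤ), 0] := by
    intro r
    refine cong_X h1 1 0 (by decide) _ ?_
    intro k
    fin_cases k <;> simp
  have w2 : P g1 ↔ P (g1 * X 1 0 (1 * ((2 ^ m : ℕ) : ℤ))) :=
    walk hP 1 0 (by decide) 1 (Or.inl rfl) (2 ^ m) g1 (fun r hr => hW ⟨_, netC hr, k2 r⟩)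
  obtain ⟨g2, hg2⟩ : ∃ g2, g2 = g1 * X 1 0 (1 * ((2 ^ m : ℕ) : ℤ)) := ⟨_, rfl⟩
  have h2 : Cong (2 * m) (cc x g2) ![1, -a, 0] := by
    rw [hg2, ← hcast]; exact k2 _
  rw [← hg2] at w2
  -- third walk
  have k3 : ∀ r : ℕ, Cong (2 * m) (cc x (g2 * X 2 1 (-1 * r)))
      ![1, -2 ^ m, -((r : ℤ) * 2 ^ m)] := by
    intro r
    refine cong_X h2 2 1 (by decide) _ ?_
    intro k
    fin_cases k <;> simp [ha]
  have w3 : P g2 ↔ P (g2 * X 2 1 (-1 * ((2 ^ m : ℕ) : ℤ))) :=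
    walk hP 2 1 (by decide) (-1) (Or.inr rfl) (2 ^ m) g2 (fun r hr => hW ⟨_, netD hr, k3 r⟩)
  obtain ⟨g3, hg3⟩ : ∃ g3, g3 = g2 * X 2 1 (-1 * ((2 ^ m : ℕ) : ℤ)) := ⟨_, rfl⟩
  have h3 : Cong (2 * m) (cc x g3) ![1, -a, -(a * a)] := by
    have := k3 (2 ^ m)
    rw [hcast] at this
    rw [hg3, hcast]
    exact this
  rw [← hg3] at w3
  -- fourth walk
  have k4 : ∀ r : ℕ, r ≤ 2 ^ m → Cong (2 * m) (cc x (g3 * X 1 0 (-1 * r)))
      ![1, -((2 ^ m - r : ℕ) : ℤ), 0] := by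
    intro r hr
    refine cong_X h3 1 0 (by decide) _ ?_
    intro k
    have e : ((2 ^ m - r : ℕ) : ℤ) = a - r := by
      rw [Nat.cast_sub hr, hcast]
    rw [e, hsq]
    fin_cases k <;> simp <;> exact ⟨0, by ring⟩
  have w4 : P g3 ↔ P (g3 * X 1 0 (-1 * ((2 ^ m : ℕ) : ℤ))) :=
    walk hP 1 0 (by decide) (-1) (Or.inr rfl) (2 ^ m) g3
      (fun r hr => hW ⟨_, netC (by omega), k4 r hr⟩)
  have h4 : Cong (2 * m) (cc x (g3 * X 1 0 (-1 * ((2 ^ m : ℕ) : ℤ)))) ![1, 0, 0] := by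
    have := k4 (2 ^ m) le_rfl
    simpa using this
  have e4 : g3 * X 1 0 (-1 * ((2 ^ m : ℕ) : ℤ)) = g * X 2 0 (2 ^ (2 * m)) := by
    rw [hg3, hg2, hg1, hsq, hcast]
    have hp := X_pent 2 1 0 (by decide) (by decide) (by decide) a a
    have : X 2 1 (1 * a) * X 1 0 (1 * a) * X 2 1 (-1 * a) * X 1 0 (-1 * a) = X 2 0 (a * a) := by
      rw [one_mul, hp]
      have c1 : X 2 0 (a * a) * X 2 1 (-1 * a) = X 2 1 (-1 * a) * X 2 0 (a * a) :=
        X_row 2 0 1 (by decide) (by decide) _ _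
      have c2 : X 2 0 (a * a) * X 1 0 (-1 * a) = X 1 0 (-1 * a) * X 2 0 (a * a) :=
        X_col 2 0 1 (by decide) (by decide) _ _
      calc X 1 0 a * X 2 1 a * X 2 0 (a * a) * X 2 1 (-1 * a) * X 1 0 (-1 * a)
          = X 1 0 a * (X 2 1 a * X 2 1 (-1 * a)) * (X 2 0 (a * a) * X 1 0 (-1 * a)) := by
            simp only [mul_assoc]
            rw [← mul_assoc (X 2 0 (a * a)) (X 2 1 (-1 * a)), c1]
            simp only [mul_assoc]
        _ = X 2 0 (a * a) := by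
            rw [← X_add, c2]
            have z : a + -1 * a = 0 := by ring
            rw [z, X_zero, mul_one, ← mul_assoc, ← X_add, z, X_zero, one_mul]
    rw [← this]
    simp only [mul_assoc]
  rw [e4] at w4 h4
  exact ⟨h4, w1.trans (w2.trans (w3.trans w4))⟩

/-- all elements of `Γ₁(2^(2m))` act inside the net -/
theorem gamma_move (hW : net x m ⊆ W) (hP : ∀ g ∈ W, ∀ s ∈ S0, g * s ∈ W → P g → P (g * s))
    (η : SL3) (hη : η ∈ Subgroup.closure (gens (2 ^ (2 * m)))) :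
    (∀ g, Cong (2 * m) (cc x g) ![1, 0, 0] →
      Cong (2 * m) (cc x (g * η)) ![1, 0, 0] ∧ (P g ↔ P (g * η))) ∧
    (∀ g, Cong (2 * m) (cc x g) ![1, 0, 0] →
      Cong (2 * m) (cc x (g * η⁻¹)) ![1, 0, 0] ∧ (P g ↔ P (g * η⁻¹))) := by
  induction hη using Subgroup.closure_induction with
  | mem y hy =>
    simp only [gens, Set.mem_insert_iff, Set.mem_singleton_iff] at hy
    have simp_case : ∀ i j : Fin 3, i ≠ j → j ≠ 0 → y = X i j 1 → 
        (∀ g, Cong (2 * m) (cc x g) ![1, 0, 0] →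
          Cong (2 * m) (cc x (g * y)) ![1, 0, 0] ∧ (P g ↔ P (g * y))) ∧
        (∀ g, Cong (2 * m) (cc x g) ![1, 0, 0] →
          Cong (2 * m) (cc x (g * y⁻¹)) ![1, 0, 0] ∧ (P g ↔ P (g * y⁻¹))) := by
      rintro i j hij hj rfl
      refine ⟨fun g hg => simple_move hW hP i j hij hj 1 (Or.inl rfl) g hg, fun g hg => ?_⟩
      rw [X_inv]
      exact simple_move hW hP i j hij hj (-1) (Or.inr rfl) g hg
    rcases hy with hy | hy | hy | hy | rfl | rfl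
    · exact simp_case 0 1 (by decide) (by decide) hy
    · exact simp_case 0 2 (by decide) (by decide) hy
    · exact simp_case 1 2 (by decide) (by decide) hy
    · exact simp_case 2 1 (by decide) (by decide) hy
    · refine ⟨fun g hg => long_move1 hW hP g hg, fun g hg => ?_⟩
      rw [X_inv]
      have h1 : Cong (2 * m) (cc x (g * X 1 0 (-2 ^ (2 * m)))) ![1, 0, 0] := by
        refine cong_X hg 1 0 (by decide) _ ?_
        intro k
        fin_cases k <;> simp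
      refine ⟨h1, ?_⟩
      have h2 := (long_move1 hW hP _ h1).2
      rw [mul_assoc, ← X_add] at h2
      simp only [neg_add_cancel, X_zero, mul_one] at h2
      exact h2.symm
    · refine ⟨fun g hg => long_move2 hW hP g hg, fun g hg => ?_⟩
      rw [X_inv]
      have h1 : Cong (2 * m) (cc x (g * X 2 0 (-2 ^ (2 * m)))) ![1, 0, 0] := by
        refine cong_X hg 2 0 (by decide) _ ?_
        intro k
        fin_cases k <;> simp
      refine ⟨h1, ?_⟩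
      have h2 := (long_move2 hW hP _ h1).2
      rw [mul_assoc, ← X_add] at h2
      simp only [neg_add_cancel, X_zero, mul_one] at h2
      exact h2.symm
  | one => simp
  | mul a b _ _ ha hb =>
    refine ⟨fun g hg => ?_, fun g hg => ?_⟩
    · obtain ⟨h1, h2⟩ := ha.1 g hg
      obtain ⟨h3, h4⟩ := hb.1 _ h1
      rw [← mul_assoc]
      exact ⟨h3, h2.trans h4⟩
    · obtain ⟨h1, h2⟩ := hb.2 g hg
      obtain ⟨h3, h4⟩ := ha.2 _ h1
      rw [mul_inv_rev, ← mul_assoc]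
      exact ⟨h3, h2.trans h4⟩
  | inv a _ ha =>
    refine ⟨ha.2, ?_⟩
    rw [inv_inv]
    exact ha.1

/-- **the net is connected** -/
theorem net_conn (hW : net x m ⊆ W) (hP : ∀ g ∈ W, ∀ s ∈ S0, g * s ∈ W → P g → P (g * s))
    (a b : SL3) (ha : a ∈ net x m) (hb : b ∈ net x m) : P a ↔ P b := by
  obtain ⟨a', ha', h1⟩ := to_e1 hW hP a ha
  obtain ⟨b', hb', h2⟩ := to_e1 hW hP b hb
  rw [h1, h2]
  have h3 : act (a'⁻¹ * b') (cc x b') = cc x a' := by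
    unfold cc
    rw [← act_mul]
    congr 1
    group
  have h4 := hb'.act (a'⁻¹ * b')
  rw [h3] at h4
  -- compare the two congruences
  have h5 : ∀ k, (2 : ℤ) ^ (2 * m) ∣ act (a'⁻¹ * b') ![1, 0, 0] k - (![1, 0, 0] : Fin 3 → ℤ) k := by
    intro k
    apply dvd_int_of_cast
    have := dvd_sub (ha' k) (h4 k)
    have e : ((act (a'⁻¹ * b') ![1, 0, 0] k - (![1, 0, 0] : Fin 3 → ℤ) k : ℤ) : Z2) =
        (cc x a' k - ((![1, 0, 0] : Fin 3 → ℤ) k : Z2)) -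
          (cc x a' k - ((act (a'⁻¹ * b') ![1, 0, 0] k : ℤ) : Z2)) := by
      push_cast; ring
    rw [e]
    exact this
  have e0 := h5 0
  have e1 := h5 1
  have e2 := h5 2
  simp [act] at e0 e1 e2
  have hmem := gen1 (2 ^ (2 * m)) (a'⁻¹ * b') e0 e1 e2
  have := ((gamma_move hW hP _ hmem).1 a' ha').2
  simpa using this

end conn

end Pool.Agent.N659.IRP
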