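import Mathlib
import Pool.Agent.N659.IRP.Net
import Pool.Agent.N659.IRP.Levels

set_option autoImplicit false

/-!
Parameters, the sets `W x n`, and the construction of `Setup` and `Lev` for a good vector `x`.
-/

namespace Pool.Agent.N659.IRP

open scoped Pointwise
open Classical in
theorem S0_finite : S0.Finite := by
  have : S0 ⊆ insert 1 ((Set.range fun p : Fin 3 × Fin 3 => X p.1 p.2 1) ∪
      (Set.range fun p : Fin 3 × Fin 3 => X p.1 p.2 (-1))) := by
    rintro s (rfl | ⟨i, j, _, rfl | rfl⟩)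
    · exact Set.mem_insert _ _
    · exact Or.inr (Or.inl ⟨(i, j), rfl⟩)
    · exact Or.inr (Or.inr ⟨(i, j), rfl⟩)
  exact Set.Finite.subset (Set.Finite.insert _ ((Set.finite_range _).union (Set.finite_range _))) this

noncomputable instance : DecidableEq SL3 := Classical.decEq _

/-- the step set as a finset -/
noncomputable def S0f : Finset SL3 := S0_finite.toFinset

theorem mem_S0f {s : SL3} : s ∈ S0f ↔ s ∈ S0 := by simp [S0f]

/-- the ball of radius four -/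
noncomputable def Sf : Finset SL3 := S0f * S0f * S0f * S0f

theorem mem_Sf {s : SL3} :
    s ∈ Sf ↔ ∃ a ∈ S0, ∃ b ∈ S0, ∃ c ∈ S0, ∃ d ∈ S0, s = a * b * c * d := by
  unfold Sf
  simp only [Finset.mem_mul, mem_S0f]
  constructor
  · rintro ⟨_, ⟨_, ⟨a, ha, b, hb, rfl⟩, c, hc, rfl⟩, d, hd, rfl⟩
    exact ⟨a, ha, b, hb, c, hc, d, hd, rfl⟩
  · rintro ⟨a, ha, b, hb, c, hc, d, hd, rfl⟩
    exact ⟨_, ⟨_, ⟨a, ha, b, hb, rfl⟩, c, hc, rfl⟩, d, hd, rfl⟩

theorem one_mem_Sf : (1 : SL3) ∈ Sf :=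
  mem_Sf.2 ⟨1, S0_one, 1, S0_one, 1, S0_one, 1, S0_one, by simp⟩

theorem S0_sub_Sf {s : SL3} (h : s ∈ S0) : s ∈ Sf :=
  mem_Sf.2 ⟨s, h, 1, S0_one, 1, S0_one, 1, S0_one, by simp⟩

theorem Sf_inv {s : SL3} (h : s ∈ Sf) : s⁻¹ ∈ Sf := by
  obtain ⟨a, ha, b, hb, c, hc, d, hd, rfl⟩ := mem_Sf.1 h
  exact mem_Sf.2 ⟨d⁻¹, S0_inv hd, c⁻¹, S0_inv hc, b⁻¹, S0_inv hb, a⁻¹, S0_inv ha,
    by simp [mul_assoc]⟩

theorem Sf_pow_mono {a b : ℕ} (h : a ≤ b) : Sf ^ a ⊆ Sf ^ b :=
  Finset.pow_subset_pow_right one_mem_Sf h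

theorem card_Sf_pos : 0 < Sf.card := Finset.card_pos.2 ⟨1, one_mem_Sf⟩

/-- level parameters -/
noncomputable def lev (k : ℕ) : ℕ := 4 * Sf.card * k + 6

theorem lev_mono {a b : ℕ} (h : a ≤ b) : lev a ≤ lev b := by
  unfold lev
  have := Nat.mul_le_mul_left (4 * Sf.card) h
  omega

/-- thickened net vectors of level `k` -/
noncomputable def T (k : ℕ) : Finset (Fin 3 → ℤ) :=
  Finset.image₂ (fun s t => act s t) (Sf ^ k) (netF (lev k))

theorem mem_T {k : ℕ} {v : Fin 3 → ℤ} :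
    v ∈ T k ↔ ∃ s ∈ Sf ^ k, ∃ t ∈ netF (lev k), act s t = v := by
  unfold T
  rw [Finset.mem_image₂]

theorem T_card (k : ℕ) : 8 * 4 ^ k * (T k).card ≤ 2 ^ (2 * lev k) := by
  have h1 : (T k).card ≤ (Sf ^ k).card * (netF (lev k)).card := Finset.card_image₂_le _ _ _
  have h2 : (Sf ^ k).card ≤ Sf.card ^ k := Finset.card_pow_le
  have h3 := netF_card (lev k)
  have h4 : (T k).card ≤ Sf.card ^ k * (4 * (2 ^ lev k + 1)) :=
    h1.trans (Nat.mul_le_mul h2 h3)
  have h5 : 4 * (2 ^ lev k + 1) ≤ 8 * 2 ^ lev k := by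
    have : 1 ≤ 2 ^ lev k := Nat.one_le_two_pow
    omega
  have h6 : 64 * (4 * Sf.card) ^ k ≤ 2 ^ lev k := by
    have h7 : 4 * Sf.card ≤ 2 ^ (4 * Sf.card) := Nat.lt_two_pow_self.le
    calc 64 * (4 * Sf.card) ^ k ≤ 64 * (2 ^ (4 * Sf.card)) ^ k :=
          Nat.mul_le_mul_left _ (Nat.pow_le_pow_left h7 k)
      _ = 2 ^ lev k := by
          unfold lev
          rw [← pow_mul, pow_add]
          norm_num [mul_comm]
  calc 8 * 4 ^ k * (T k).card ≤ 8 * 4 ^ k * (Sf.card ^ k * (8 * 2 ^ lev k)) :=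
        Nat.mul_le_mul_left _ (h4.trans (Nat.mul_le_mul_left _ h5))
    _ = (64 * (4 * Sf.card) ^ k) * 2 ^ lev k := by rw [mul_pow]; ring
    _ ≤ 2 ^ lev k * 2 ^ lev k := Nat.mul_le_mul_right _ h6
    _ = 2 ^ (2 * lev k) := by rw [← pow_add]; congr 1; ring

/-- the sets `V n` -/
def Vset (n : ℕ) : Set (Fin 3 → Z2) :=
  {c | ∃ k, n ≤ k ∧ ∃ s ∈ Sf ^ (k - n), ∃ t ∈ netF (lev k), Cong (2 * lev k) c (act s t)}

/-- the thick nets -/
def Wset (x : Fin 3 → Z2) (n : ℕ) : Set SL3 := {g | cc x g ∈ Vset n}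

theorem Vset_mem_T {n : ℕ} {c : Fin 3 → Z2} (h : c ∈ Vset n) :
    ∃ k, n ≤ k ∧ ∃ v ∈ T k, Cong (2 * lev k) c v := by
  obtain ⟨k, hk, s, hs, t, ht, hc⟩ := h
  exact ⟨k, hk, _, mem_T.2 ⟨s, Sf_pow_mono (Nat.sub_le k n) hs, t, ht, rfl⟩, hc⟩

theorem Vset_anti {n : ℕ} {c : Fin 3 → Z2} {s : SL3} (hs : s ∈ Sf) (h : c ∈ Vset (n + 1)) :
    act s c ∈ Vset n := by
  obtain ⟨k, hk, s', hs', t, ht, hc⟩ := h
  refine ⟨k, by omega, s * s', ?_, t, ht, ?_⟩
  · have : k - n = (k - (n + 1)) + 1 := by omega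
    rw [this, pow_succ']
    exact Finset.mul_mem_mul hs hs'
  · rw [act_mul]
    exact hc.act s

theorem Vset_succ_sub (n : ℕ) : Vset (n + 1) ⊆ Vset n := by
  intro c h
  have := Vset_anti one_mem_Sf h
  rwa [act_one] at this

theorem Vset_antitone {m n : ℕ} (h : m ≤ n) : Vset n ⊆ Vset m := by
  induction h with
  | refl => exact subset_rfl
  | step _ ih => exact (Vset_succ_sub _).trans ih

theorem net_sub_W (x : Fin 3 → Z2) {n k : ℕ} (h : n ≤ k) : net x (lev k) ⊆ Wset x n := by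
  rintro g ⟨t, ht, hc⟩
  refine ⟨k, h, 1, ?_, t, ht, by rwa [act_one]⟩
  exact Sf_pow_mono (Nat.zero_le _) (by simp)

/-- points of `W x n` reach the nets -/
theorem W_to_net (x : Fin 3 → Z2) (n k : ℕ) (hk : n ≤ k) (P : SL3 → Prop)
    (hP : ∀ g ∈ Wset x n, ∀ s ∈ S0, g * s ∈ Wset x n → P g → P (g * s)) (r : ℕ)
    (hr : r ≤ k - n) :
    ∀ g s, s ∈ Sf ^ r → g * s ∈ net x (lev k) → (P g ↔ P (g * s)) := by
  have hmem : ∀ (r : ℕ), r ≤ k - n → ∀ g s, s ∈ Sf ^ r → g * s ∈ net x (lev k) →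
      g ∈ Wset x n := by
    intro r hr g s hs hg
    obtain ⟨t, ht, hc⟩ := hg
    refine ⟨k, hk, s, Sf_pow_mono hr hs, t, ht, ?_⟩
    have := hc.act s
    rwa [cc_mul, ← act_mul, mul_inv_cancel, act_one] at this
  induction r with
  | zero =>
    intro g s hs hg
    simp only [pow_zero, Finset.mem_one] at hs
    subst hs
    simp
  | succ r ih =>
    intro g s hs hg
    have hs00 := hs
    rw [pow_succ'] at hs
    obtain ⟨s1, hs1, s', hs', rfl⟩ := Finset.mem_mul.1 hs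
    obtain ⟨a, ha, b, hb, c, hc, d, hd, rfl⟩ := mem_Sf.1 hs1
    have hg0 : g ∈ Wset x n := hmem (r + 1) hr g _ hs00 hg
    -- intermediate points
    have q1 : b * c * d * s' ∈ Sf ^ (r + 1) := by
      rw [pow_succ']
      exact Finset.mul_mem_mul (mem_Sf.2 ⟨b, hb, c, hc, d, hd, 1, S0_one, by simp⟩) hs'
    have q2 : c * d * s' ∈ Sf ^ (r + 1) := by
      rw [pow_succ']
      exact Finset.mul_mem_mul (mem_Sf.2 ⟨c, hc, d, hd, 1, S0_one, 1, S0_one, by simp⟩) hs'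
    have q3 : d * s' ∈ Sf ^ (r + 1) := by
      rw [pow_succ']
      exact Finset.mul_mem_mul (mem_Sf.2 ⟨d, hd, 1, S0_one, 1, S0_one, 1, S0_one, by simp⟩) hs'
    have hg1 : g * a ∈ Wset x n := hmem (r + 1) hr _ _ q1 (by simpa [mul_assoc] using hg)
    have hg2 : g * a * b ∈ Wset x n := hmem (r + 1) hr _ _ q2 (by simpa [mul_assoc] using hg)
    have hg3 : g * a * b * c ∈ Wset x n := hmem (r + 1) hr _ _ q3 (by simpa [mul_assoc] using hg)
    have hg4 : g * a * b * c * d ∈ Wset x n :=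
      hmem r (by omega) _ _ hs' (by simpa [mul_assoc] using hg)
    have e1 := P_iff_step hP ha hg0 hg1
    have e2 := P_iff_step hP hb hg1 hg2
    have e3 := P_iff_step hP hc hg2 hg3
    have e4 := P_iff_step hP hd hg3 hg4
    have e5 := ih (by omega) (g * a * b * c * d) s' hs' (by simpa [mul_assoc] using hg)
    have e6 : g * (a * b * c * d * s') = g * a * b * c * d * s' := by simp [mul_assoc]
    rw [e6]
    exact e1.trans (e2.trans (e3.trans (e4.trans e5)))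

/-- approximation of an arbitrary target when the pivot is a unit -/
theorem exists_approx (n : ℕ) (u w : Z2) (hu : ¬ (2 : Z2) ∣ u) : ∃ s : ℤ, (2 : Z2) ^ n ∣ w - s * u := by
  have hunit : IsUnit u := by
    rw [PadicInt.isUnit_iff]
    by_contra h
    have h1 : ‖u‖ < 1 := lt_of_le_of_ne (PadicInt.norm_le_one u) h
    rw [PadicInt.norm_lt_one_iff_dvd] at h1
    exact hu (by exact_mod_cast h1)
  obtain ⟨v, hv⟩ := hunit.exists_right_inv
  have h2 := PadicInt.appr_spec n (w * v)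
  rw [Ideal.mem_span_singleton] at h2
  refine ⟨((w * v).appr n : ℤ), ?_⟩
  have h3 : w - (((w * v).appr n : ℤ) : Z2) * u = u * (w * v - ((w * v).appr n : Z2)) := by
    have : w = u * v * w := by rw [hv, one_mul]
    push_cast
    linear_combination this
  rw [h3]
  refine Dvd.dvd.mul_left ?_ _
  exact_mod_cast h2

/-- primitive vectors are moved to `e₁` -/
theorem exists_e1 (x : Fin 3 → Z2) (hx : ∃ j, ¬ (2 : Z2) ∣ x j) (n : ℕ) (hn : 1 ≤ n) :
    ∃ g, Cong n (cc x g) ![1, 0, 0] := by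
  have set1 : ∀ (g : SL3) (i j : Fin 3), i ≠ j → ¬ (2 : Z2) ∣ cc x g j → ∀ τ : ℤ, ∃ s : ℤ,
      (2 : Z2) ^ n ∣ cc x (g * X i j s) i - (τ : Z2) ∧
      ∀ k, k ≠ i → cc x (g * X i j s) k = cc x g k := by
    intro g i j hij hu τ
    obtain ⟨s, hs⟩ := exists_approx n (cc x g j) (cc x g i - (τ : Z2)) hu
    refine ⟨s, ?_, ?_⟩
    · rw [cc_X x g i j hij, if_pos rfl]
      have : cc x g i - (s : Z2) * cc x g j - (τ : Z2) = cc x g i - (τ : Z2) - s * cc x g j := by
        ring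
      rw [this]; exact hs
    · intro k hk
      rw [cc_X x g i j hij, if_neg hk, sub_zero]
  have odd1 : ∀ z : Z2, (2 : Z2) ^ n ∣ z - ((1 : ℤ) : Z2) → ¬ (2 : Z2) ∣ z := by
    intro z h1 h2
    have h3 : (2 : Z2) ∣ z - ((1 : ℤ) : Z2) := (dvd_pow_self _ (by omega)).trans h1
    have h4 : (2 : Z2) ∣ ((1 : ℤ) : Z2) := by
      have := dvd_sub h2 h3
      simpa using this
    have h5 := dvd_int_of_cast (n := 1) (z := 1) (by simpa using h4)
    norm_num at h5
  -- step 1: make the 0-th coordinate 1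
  have step1 : ∃ g, (2 : Z2) ^ n ∣ cc x g 0 - ((1 : ℤ) : Z2) := by
    obtain ⟨j, hj⟩ := hx
    have hc1 : cc x 1 = x := by unfold cc; rw [inv_one, act_one]
    by_cases hj0 : j = 0
    · subst hj0
      obtain ⟨s, hs, _⟩ := set1 1 1 0 (by decide) (by rw [hc1]; exact hj) 1
      obtain ⟨s', hs', _⟩ := set1 (1 * X 1 0 s) 0 1 (by decide) (odd1 _ hs) 1
      exact ⟨_, hs'⟩
    · obtain ⟨s, hs, _⟩ := set1 1 0 j (Ne.symm hj0) (by rw [hc1]; exact hj) 1
      exact ⟨_, hs⟩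
  obtain ⟨g, hg⟩ := step1
  obtain ⟨s, hs, hs'⟩ := set1 g 1 0 (by decide) (odd1 _ hg) 0
  have hg1 : (2 : Z2) ^ n ∣ cc x (g * X 1 0 s) 0 - ((1 : ℤ) : Z2) := by
    rw [hs' 0 (by decide)]; exact hg
  obtain ⟨r, hr, hr'⟩ := set1 (g * X 1 0 s) 2 0 (by decide) (odd1 _ hg1) 0
  refine ⟨g * X 1 0 s * X 2 0 r, ?_⟩
  intro k
  fin_cases k
  · show (2 : Z2) ^ n ∣ cc x (g * X 1 0 s * X 2 0 r) 0 - _
    rw [hr' 0 (by decide)]
    simpa using hg1
  · show (2 : Z2) ^ n ∣ cc x (g * X 1 0 s * X 2 0 r) 1 - _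
    rw [hr' 1 (by decide)]
    simpa using hs
  · show (2 : Z2) ^ n ∣ cc x (g * X 1 0 s * X 2 0 r) 2 - _
    simpa using hr

/-- bad shift `s` at level `k` for the vector `c` and indices `(i,j,l)` -/
def Bad (i j l : Fin 3) (c : Fin 3 → Z2) (k : ℕ) (s : ℤ) : Prop :=
  ∃ t ∈ T k, (2 : Z2) ^ (2 * lev k) ∣ c i - s * c j - (t i : Z2) ∧
    ((2 : Z2) ^ (2 * lev k) ∣ c j - (t j : Z2) ∨ (2 : Z2) ^ (2 * lev k) ∣ c l - (t l : Z2))

/-- almost sure properties of a vector -/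
structure GoodX (x : Fin 3 → Z2) : Prop where
  prim : ∃ j, ¬ (2 : Z2) ∣ x j
  ex : ∀ g i j l, i ≠ j → j ≠ l → i ≠ l → ¬ (2 : Z2) ∣ cc x g j →
    ∃ s : ℤ, ∀ k, ¬ Bad i j l (cc x g) k s
  bc : ∀ g, ∃ n, ∀ k, n ≤ k → ∀ t ∈ T k, ¬ Cong (2 * lev k) (cc x g) t

theorem prim_cc {x : Fin 3 → Z2} (hx : ∃ j, ¬ (2 : Z2) ∣ x j) (g : SL3) :
    ∃ j, ¬ (2 : Z2) ∣ cc x g j := by
  by_contra h
  push Not at h
  obtain ⟨j, hj⟩ := hx
  apply hj
  have h1 : act g (cc x g) = x := by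
    unfold cc
    rw [← act_mul, mul_inv_cancel, act_one]
  rw [← h1]
  exact act_dvd g _ _ h j

/-- the `Setup` of a good vector -/
noncomputable def setup (x : Fin 3 → Z2) (hx : GoodX x) : Setup SL3 where
  x := fun i j => X i j 1
  row := fun i j l hij hil _ => X_row i j l hij hil 1 1
  col := fun i j l hij hlj _ => X_col i j l hij hlj 1 1
  pent := fun i j l hij hjl hil => by
    have := X_pent i j l hij hjl hil 1 1
    simpa using this
  unit := fun j g => ¬ (2 : Z2) ∣ cc x g j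
  free := fun m g => ∀ k, ∀ t ∈ T k, ¬ (∀ a, a ≠ m → (2 : Z2) ^ (2 * lev k) ∣ cc x g a - (t a : Z2))
  unit_exists := fun g => prim_cc hx.prim g
  unit_move := by
    intro i j m g hij hm
    rw [cc_X x g i j hij, if_neg hm, sub_zero]
  unit_gain := by
    intro i j g hij hi hj h
    rw [cc_X x g i j hij, if_pos rfl] at h
    push Not at hi
    apply hj
    have := dvd_sub hi h
    simpa using this
  unit_keep := by
    intro i j g hij hi hj h
    rw [cc_X x g i j hij, if_pos rfl] at h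
    push Not at hj
    apply hi
    have := dvd_add h (hj.mul_left ((1 : ℤ) : Z2))
    simpa using this
  free_move := by
    intro m a g hma
    have : ∀ b, b ≠ m → cc x (g * X m a 1) b = cc x g b := by
      intro b hb
      rw [cc_X x g m a hma, if_neg hb, sub_zero]
    refine forall_congr' fun k => forall_congr' fun t => forall_congr' fun _ => ?_
    refine not_congr (forall_congr' fun b => ?_)
    refine forall_congr' fun hb => ?_
    rw [this b hb]
  ex := by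
    intro i j l g hij hjl hil hj
    obtain ⟨s, hs⟩ := hx.ex g i j l hij hjl hil hj
    have hc : ∀ b, cc x (g * X i j 1 ^ s) b =
        cc x g b - (if b = i then (s : Z2) * cc x g j else 0) := by
      intro b
      rw [X_zpow, mul_one, cc_X x g i j hij]
    refine ⟨s, ?_, ?_⟩
    · intro k t ht h
      apply hs k
      refine ⟨t, ht, ?_, Or.inl ?_⟩
      · have := h i hil
        rwa [hc, if_pos rfl] at this
      · have := h j hjl
        rwa [hc, if_neg hij.symm, sub_zero] at this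
    · intro k t ht h
      apply hs k
      refine ⟨t, ht, ?_, Or.inr ?_⟩
      · have := h i hij
        rwa [hc, if_pos rfl] at this
      · have := h l hjl.symm
        rwa [hc, if_neg hil.symm, sub_zero] at this

/-- the level structure of a good vector -/
noncomputable def level (x : Fin 3 → Z2) (hx : GoodX x) : Lev (setup x hx) where
  S0 := S0
  one_mem := S0_one
  inv_mem := fun _ hs => S0_inv hs
  x_mem := fun i j hij => S0_X i j hij
  S0_cases := by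
    rintro s (rfl | ⟨i, j, hij, rfl | rfl⟩)
    · exact Or.inl rfl
    · exact Or.inr ⟨i, j, hij, Or.inl rfl⟩
    · exact Or.inr ⟨i, j, hij, Or.inr (X_inv i j 1).symm⟩
  gen := gen_top
  W := Wset x
  anti := by
    intro n g a b c d hg ha hb hc hd
    have hs : (a * b * c * d)⁻¹ ∈ Sf := Sf_inv (mem_Sf.2 ⟨a, ha, b, hb, c, hc, d, hd, rfl⟩)
    show cc x (g * (a * b * c * d)) ∈ Vset n
    rw [cc_mul]
    exact Vset_anti hs hg
  empt := by
    intro g
    obtain ⟨n, hn⟩ := hx.bc g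
    refine ⟨n, fun h => ?_⟩
    obtain ⟨k, hk, v, hv, hc⟩ := Vset_mem_T h
    exact hn k hk v hv hc
  ne := by
    intro n
    obtain ⟨g, hg⟩ := exists_e1 x hx.prim (2 * lev n) (by unfold lev; omega)
    exact ⟨g, net_sub_W x le_rfl (e1_mem_net g hg)⟩
  conn := by
    intro n P hP a ha b hb
    obtain ⟨k, hk, s, hs, t, ht, hc⟩ := ha
    obtain ⟨k', hk', s', hs', t', ht', hc'⟩ := hb
    have h1 : a * s ∈ net x (lev k) := by
      refine ⟨t, ht, ?_⟩
      have := hc.act s⁻¹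
      rwa [← act_mul, inv_mul_cancel, act_one, ← cc_mul] at this
    have h2 : b * s' ∈ net x (lev k') := by
      refine ⟨t', ht', ?_⟩
      have := hc'.act s'⁻¹
      rwa [← act_mul, inv_mul_cancel, act_one, ← cc_mul] at this
    have e1 := W_to_net x n k hk P hP (k - n) le_rfl a s hs h1
    have e2 := W_to_net x n k' hk' P hP (k' - n) le_rfl b s' hs' h2
    obtain ⟨g, hg⟩ := exists_e1 x hx.prim (2 * lev (max k k')) (by unfold lev; omega)
    have g1 : g ∈ net x (lev k) :=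
      e1_mem_net g (hg.mono (Nat.mul_le_mul_left 2 (lev_mono (le_max_left _ _))))
    have g2 : g ∈ net x (lev k') :=
      e1_mem_net g (hg.mono (Nat.mul_le_mul_left 2 (lev_mono (le_max_right _ _))))
    have e3 := net_conn (net_sub_W x hk) hP _ _ h1 g1
    have e4 := net_conn (net_sub_W x hk') hP _ _ h2 g2
    intro hPa
    exact e2.2 (e4.2 (e3.1 (e1.1 hPa)))
  ZW := by
    rintro g ⟨m, hm, _⟩ h
    obtain ⟨k, _, v, hv, hc⟩ := Vset_mem_T h
    exact hm k v hv (fun a _ => hc a)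

end Pool.Agent.N659.IRP
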