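import Mathlib
import Pool.Agent.N659.IRP.Arith

set_option autoImplicit false

/-!
Haar measure on `ℤ₂³` and almost sure properties.
-/

namespace Pool.Agent.N659.IRP

open MeasureTheory

noncomputable section

abbrev V3 := Fin 3 → Z2

instance instMSZ2 : MeasurableSpace ℤ_[2] := borel ℤ_[2]

instance instBSZ2 : BorelSpace ℤ_[2] := ⟨rfl⟩

instance instBSV3 : BorelSpace V3 := inferInstance

/-- Haar probability measure -/
def nu : Measure V3 := Measure.addHaarMeasure (⊤ : TopologicalSpace.PositiveCompacts V3)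

instance : Measure.IsAddHaarMeasure nu := by unfold nu; infer_instance

instance : IsProbabilityMeasure nu := by
  refine ⟨?_⟩
  have := Measure.addHaarMeasure_self (K₀ := (⊤ : TopologicalSpace.PositiveCompacts V3))
  simpa [nu] using this

theorem continuous_act (g : SL3) : Continuous (fun c : V3 => act g c) := by
  unfold act
  fun_prop

/-- the action as an additive homomorphism -/
def actHom (g : SL3) : V3 →+ V3 where
  toFun := act g
  map_zero' := by funext i; simp [act]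
  map_add' := act_add g

theorem measurePreserving_act (g : SL3) : MeasurePreserving (fun c : V3 => act g c) nu nu := by
  refine ⟨(continuous_act g).measurable, ?_⟩
  have hs : Function.Surjective (actHom g) := by
    intro c
    refine ⟨act g⁻¹ c, ?_⟩
    show act g (act g⁻¹ c) = c
    rw [← act_mul, mul_inv_cancel, act_one]
  have h1 : Measure.IsAddHaarMeasure (Measure.map (fun c : V3 => act g c) nu) :=
    Measure.isAddHaarMeasure_map_of_isFiniteMeasure nu (actHom g) (continuous_act g) hs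
  have h2 : IsProbabilityMeasure (Measure.map (fun c : V3 => act g c) nu) :=
    Measure.isProbabilityMeasure_map (continuous_act g).measurable.aemeasurable
  exact Measure.isAddHaarMeasure_eq_of_isProbabilityMeasure _ _

/-- packing bound -/
theorem pack {ι : Type*} (s : Finset ι) (A : Set V3) (hA : MeasurableSet A) (d : ι → V3)
    (hd : ∀ i ∈ s, ∀ j ∈ s, ∀ c, c + d i ∈ A → c + d j ∈ A → i = j) :
    (s.card : ENNReal) * nu A ≤ 1 := by
  have h1 : ∀ i, nu ((fun c => c + d i) ⁻¹' A) = nu A := fun i =>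
    measure_preimage_add_right nu (d i) A
  have h2 : nu (⋃ i ∈ s, (fun c => c + d i) ⁻¹' A) = ∑ i ∈ s, nu ((fun c => c + d i) ⁻¹' A) := by
    refine measure_biUnion_finset ?_ ?_
    · intro i hi j hj hij
      rw [Function.onFun, Set.disjoint_left]
      intro c hc hc'
      exact hij (hd i hi j hj c hc hc')
    · intro i _
      exact (measurable_add_const (d i)) hA
  have h3 : nu (⋃ i ∈ s, (fun c => c + d i) ⁻¹' A) ≤ 1 := prob_le_one
  rw [h2] at h3
  simp only [h1, Finset.sum_const, nsmul_eq_mul] at h3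
  exact h3

theorem isClosed_dvd (n : ℕ) : IsClosed {z : Z2 | (2 : Z2) ^ n ∣ z} := by
  have : {z : Z2 | (2 : Z2) ^ n ∣ z} = {z : Z2 | ‖z‖ ≤ (2 : ℝ) ^ (-n : ℤ)} := by
    ext z
    have := PadicInt.norm_le_pow_iff_mem_span_pow (p := 2) z n
    rw [Ideal.mem_span_singleton] at this
    simp only [Set.mem_ofPred_eq]
    rw [show (2 : ℝ) = ((2 : ℕ) : ℝ) by norm_num, this]
    norm_num
  rw [this]
  exact isClosed_le continuous_norm continuous_const

theorem measurableSet_dvd (n : ℕ) (f : V3 → Z2) (hf : Continuous f) :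
    MeasurableSet {c : V3 | (2 : Z2) ^ n ∣ f c} :=
  ((isClosed_dvd n).preimage hf).measurableSet

/-- two-coordinate events -/
theorem two_coord (n : ℕ) (i j b : Fin 3) (hij : i ≠ j) (hib : i ≠ b) (s u w : ℤ) :
    nu {c : V3 | (2 : Z2) ^ n ∣ c i - s * c j - (u : Z2) ∧ (2 : Z2) ^ n ∣ c b - (w : Z2)} ≤
      ((2 ^ n * 2 ^ n : ℕ) : ENNReal)⁻¹ := by
  set A := {c : V3 | (2 : Z2) ^ n ∣ c i - s * c j - (u : Z2) ∧ (2 : Z2) ^ n ∣ c b - (w : Z2)} with hA
  have hAm : MeasurableSet A := by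
    refine (measurableSet_dvd n (fun c => c i - s * c j - (u : Z2)) (by fun_prop)).inter
      (measurableSet_dvd n (fun c => c b - (w : Z2)) (by fun_prop))
  let d : ℕ × ℕ → V3 := fun pq k =>
    if k = b then (pq.2 : Z2) else if k = i then (pq.1 : Z2) + s * (if j = b then (pq.2 : Z2) else 0)
      else 0
  have hp := pack (Finset.range (2 ^ n) ×ˢ Finset.range (2 ^ n)) A hAm d ?_
  · rw [Finset.card_product, Finset.card_range] at hp
    rw [ENNReal.le_inv_iff_mul_le, mul_comm]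
    exact hp
  · rintro ⟨p, q⟩ hpq ⟨p', q'⟩ hpq' c hc hc'
    simp only [Finset.mem_product, Finset.mem_range] at hpq hpq'
    obtain ⟨h1, h2⟩ := hc
    obtain ⟨h1', h2'⟩ := hc'
    simp only [Pi.add_apply] at h1 h2 h1' h2'
    have e1 : ∀ pq : ℕ × ℕ, d pq i - s * d pq j = (pq.1 : Z2) := by
      intro pq
      simp only [d, if_neg hib, if_true]
      by_cases hjb : j = b
      · simp [hjb]
      · simp [hjb, hij.symm]
    have e2 : ∀ pq : ℕ × ℕ, d pq b = (pq.2 : Z2) := by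
      intro pq
      simp [d]
    have f1 := dvd_sub h1 h1'
    have f2 := dvd_sub h2 h2'
    have g1 : (2 : Z2) ^ n ∣ (((p : ℤ) - (p' : ℤ) : ℤ) : Z2) := by
      have a1 := e1 (p, q)
      have a2 := e1 (p', q')
      have : (((p : ℤ) - (p' : ℤ) : ℤ) : Z2) =
          (c i + d (p, q) i - s * (c j + d (p, q) j) - u) -
            (c i + d (p', q') i - s * (c j + d (p', q') j) - u) := by
        push_cast
        linear_combination a2 - a1
      rw [this]; exact f1
    have g2 : (2 : Z2) ^ n ∣ (((q : ℤ) - (q' : ℤ) : ℤ) : Z2) := by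
      have a1 := e2 (p, q)
      have a2 := e2 (p', q')
      have : (((q : ℤ) - (q' : ℤ) : ℤ) : Z2) =
          (c b + d (p, q) b - w) - (c b + d (p', q') b - w) := by
        push_cast
        linear_combination a2 - a1
      rw [this]; exact f2
    have k1 := dvd_int_of_cast g1
    have k2 := dvd_int_of_cast g2
    have small : ∀ a b : ℕ, a < 2 ^ n → b < 2 ^ n → (2 : ℤ) ^ n ∣ (a : ℤ) - b → a = b := by
      intro a b ha hb h
      have ha' : (a : ℤ) < 2 ^ n := by exact_mod_cast ha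
      have hb' : (b : ℤ) < 2 ^ n := by exact_mod_cast hb
      have : (a : ℤ) - b = 0 := by
        apply Int.eq_zero_of_abs_lt_dvd h
        rw [abs_lt]
        constructor <;> omega
      omega
    exact Prod.ext (small p p' hpq.1 hpq'.1 k1) (small q q' hpq.2 hpq'.2 k2)

/-- tail events -/
def Gev (i j l : Fin 3) (k : ℕ) : Set V3 :=
  {c | ∃ s : ℕ, s < 2 ^ (2 * lev k) ∧ Bad i j l c (k + 1) s}

def Bev (k : ℕ) : Set V3 := {c | ∃ t ∈ T k, Cong (2 * lev k) c t}

theorem frac_bound (a N k : ℕ) (h : a * 4 ^ k ≤ N) (hN : 0 < N) :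
    (a : ENNReal) * ((N : ℕ) : ENNReal)⁻¹ ≤ (4⁻¹ : ENNReal) ^ k := by
  rw [← ENNReal.inv_pow, ENNReal.le_inv_iff_mul_le]
  calc (a : ENNReal) * ((N : ℕ) : ENNReal)⁻¹ * 4 ^ k
      = ((a * 4 ^ k : ℕ) : ENNReal) * ((N : ℕ) : ENNReal)⁻¹ := by push_cast; ring
    _ ≤ ((N : ℕ) : ENNReal) * ((N : ℕ) : ENNReal)⁻¹ := by
        gcongr
    _ ≤ 1 := ENNReal.mul_inv_le_one _

theorem Gev_bound (i j l : Fin 3) (hij : i ≠ j) (hil : i ≠ l) (k : ℕ) :
    nu (Gev i j l k) ≤ (4⁻¹ : ENNReal) ^ k := by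
  set N := 2 ^ (2 * lev (k + 1)) with hN
  have hsub : Gev i j l k ⊆ ⋃ s ∈ Finset.range (2 ^ (2 * lev k)), ⋃ t ∈ T (k + 1),
      ({c : V3 | (2 : Z2) ^ (2 * lev (k + 1)) ∣ c i - ((s : ℕ) : ℤ) * c j - ((t i : ℤ) : Z2) ∧
        (2 : Z2) ^ (2 * lev (k + 1)) ∣ c j - ((t j : ℤ) : Z2)} ∪
      {c : V3 | (2 : Z2) ^ (2 * lev (k + 1)) ∣ c i - ((s : ℕ) : ℤ) * c j - ((t i : ℤ) : Z2) ∧
        (2 : Z2) ^ (2 * lev (k + 1)) ∣ c l - ((t l : ℤ) : Z2)}) := by
    rintro c ⟨s, hs, t, ht, h1, h2⟩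
    simp only [Set.mem_iUnion]
    refine ⟨s, Finset.mem_range.2 hs, t, ht, ?_⟩
    rcases h2 with h2 | h2
    · exact Or.inl ⟨h1, h2⟩
    · exact Or.inr ⟨h1, h2⟩
  have h1 : nu (Gev i j l k) ≤ ∑ s ∈ Finset.range (2 ^ (2 * lev k)), ∑ t ∈ T (k + 1),
      (2 * ((N * N : ℕ) : ENNReal)⁻¹) := by
    refine (measure_mono hsub).trans ((measure_biUnion_finset_le _ _).trans ?_)
    refine Finset.sum_le_sum fun s _ => (measure_biUnion_finset_le _ _).trans ?_
    refine Finset.sum_le_sum fun t _ => (measure_union_le _ _).trans ?_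
    have h3 := add_le_add (two_coord (2 * lev (k + 1)) i j j hij hij ((s : ℕ) : ℤ) (t i) (t j))
      (two_coord (2 * lev (k + 1)) i j l hij hil ((s : ℕ) : ℤ) (t i) (t l))
    rw [← two_mul (((2 ^ (2 * lev (k + 1)) * 2 ^ (2 * lev (k + 1)) : ℕ) : ENNReal)⁻¹)] at h3
    exact h3
  refine h1.trans ?_
  simp only [Finset.sum_const, Finset.card_range, nsmul_eq_mul]
  have hc := T_card (k + 1)
  rw [← hN] at hc
  have hmono : 2 ^ (2 * lev k) ≤ N :=
    Nat.pow_le_pow_right (by norm_num) (Nat.mul_le_mul_left 2 (lev_mono (Nat.le_succ k)))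
  have hNpos : 0 < N := by positivity
  have key : (2 ^ (2 * lev k) * (T (k + 1)).card * 2) * 4 ^ k ≤ N * N := by
    calc (2 ^ (2 * lev k) * (T (k + 1)).card * 2) * 4 ^ k
        = 2 ^ (2 * lev k) * (2 * 4 ^ k * (T (k + 1)).card) := by ring
      _ ≤ N * (8 * 4 ^ (k + 1) * (T (k + 1)).card) := by
          refine Nat.mul_le_mul hmono (Nat.mul_le_mul_right _ ?_)
          rw [pow_succ]
          have : 0 < 4 ^ k := by positivity
          nlinarith
      _ ≤ N * N := Nat.mul_le_mul_left _ hc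
  have := frac_bound _ (N * N) k key (by positivity)
  refine le_trans (le_of_eq ?_) this
  push_cast
  ring

theorem Bev_bound (k : ℕ) : nu (Bev k) ≤ (4⁻¹ : ENNReal) ^ k := by
  set N := 2 ^ (2 * lev k) with hN
  have hsub : Bev k ⊆ ⋃ t ∈ T k,
      {c : V3 | (2 : Z2) ^ (2 * lev k) ∣ c 0 - ((0 : ℤ) : Z2) * c 1 - ((t 0 : ℤ) : Z2) ∧
        (2 : Z2) ^ (2 * lev k) ∣ c 1 - ((t 1 : ℤ) : Z2)} := by
    rintro c ⟨t, ht, h⟩
    simp only [Set.mem_iUnion]
    refine ⟨t, ht, ?_, h 1⟩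
    have := h 0
    simpa using this
  have h1 : nu (Bev k) ≤ ∑ t ∈ T k, ((N * N : ℕ) : ENNReal)⁻¹ := by
    refine (measure_mono hsub).trans ((measure_biUnion_finset_le _ _).trans ?_)
    exact Finset.sum_le_sum fun t _ => two_coord _ 0 1 1 (by decide) (by decide) _ _ _
  refine h1.trans ?_
  simp only [Finset.sum_const, nsmul_eq_mul]
  have hc := T_card k
  rw [← hN] at hc
  have hNpos : 0 < N := by positivity
  refine frac_bound _ (N * N) k ?_ (by positivity)
  calc (T k).card * 4 ^ k ≤ 8 * 4 ^ k * (T k).card := by nlinarith [Nat.zero_le ((T k).card * 4 ^ k)]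
    _ ≤ N := hc
    _ ≤ N * N := Nat.le_mul_self N

theorem tsum_ne_top (f : ℕ → ENNReal) (h : ∀ k, f k ≤ (4⁻¹ : ENNReal) ^ k) : ∑' k, f k ≠ ⊤ := by
  have h1 : ∑' k, f k ≤ ∑' k, (4⁻¹ : ENNReal) ^ k := ENNReal.tsum_le_tsum h
  rw [ENNReal.tsum_geometric] at h1
  refine ne_top_of_le_ne_top ?_ h1
  rw [ENNReal.inv_ne_top]
  have : (4⁻¹ : ENNReal) < 1 := by
    rw [ENNReal.inv_lt_one]
    norm_num
  exact (tsub_pos_of_lt this).ne'

theorem ae_Gev (i j l : Fin 3) (hij : i ≠ j) (hil : i ≠ l) :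
    ∀ᵐ c ∂nu, ∀ᶠ k in Filter.atTop, c ∉ Gev i j l k :=
  ae_eventually_notMem (tsum_ne_top _ (Gev_bound i j l hij hil))

theorem ae_Bev : ∀ᵐ c ∂nu, ∀ᶠ k in Filter.atTop, c ∉ Bev k :=
  ae_eventually_notMem (tsum_ne_top _ Bev_bound)

end

end Pool.Agent.N659.IRP
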