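import Mathlib
import Pool.Agent.N659.IRP.Meas
import Pool.Agent.N659.IRP.Classes

set_option autoImplicit false

/-!
Almost every primitive vector is good.
-/

namespace Pool.Agent.N659.IRP

open MeasureTheory
open scoped Pointwise

noncomputable section

theorem dvd_cancel_unit {n : ℕ} {u z : Z2} (hu : ¬ (2 : Z2) ∣ u) (h : (2 : Z2) ^ n ∣ z * u) :
    (2 : Z2) ^ n ∣ z := by
  have hunit : IsUnit u := by
    rw [PadicInt.isUnit_iff]
    by_contra h
    have h1 : ‖u‖ < 1 := lt_of_le_of_ne (PadicInt.norm_le_one u) h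
    rw [PadicInt.norm_lt_one_iff_dvd] at h1
    exact hu (by exact_mod_cast h1)
  exact (hunit.dvd_mul_right).1 h

theorem count_class (n M : ℕ) (hM : 2 ^ n ∣ M) (a u b : Z2) (hu : ¬ (2 : Z2) ∣ u) (A : Finset ℕ)
    (hA : ∀ s ∈ A, s < M ∧ (2 : Z2) ^ n ∣ a - (s : Z2) * u - b) : A.card ≤ M / 2 ^ n := by
  have hpos : 0 < 2 ^ n := by positivity
  have : A.card ≤ (Finset.range (M / 2 ^ n)).card := by
    refine Finset.card_le_card_of_injOn (fun s => s / 2 ^ n) ?_ ?_
    · intro s hs
      have h1 := (hA s hs).1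
      simp only [Finset.coe_range, Set.mem_Iio]
      rw [Nat.div_lt_iff_lt_mul hpos, Nat.div_mul_cancel hM]
      exact h1
    · intro s hs s' hs' hss
      have h1 := (hA s hs).2
      have h2 := (hA s' hs').2
      have h3 := dvd_sub h2 h1
      have h4 : (2 : Z2) ^ n ∣ (((s : ℤ) - (s' : ℤ) : ℤ) : Z2) := by
        apply dvd_cancel_unit hu
        have : (((s : ℤ) - (s' : ℤ) : ℤ) : Z2) * u =
            (a - (s' : Z2) * u - b) - (a - (s : Z2) * u - b) := by push_cast; ring
        rw [this]; exact h3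
      have h5 := dvd_int_of_cast h4
      have h6 : (s' : ℤ) ≡ s [ZMOD ((2 ^ n : ℕ) : ℤ)] := by
        rw [Int.modEq_iff_dvd]
        exact_mod_cast h5
      have h7 : s' % 2 ^ n = s % 2 ^ n := (Int.natCast_modEq_iff.1 h6)
      have e1 := Nat.div_add_mod s (2 ^ n)
      have e2 := Nat.div_add_mod s' (2 ^ n)
      simp only at hss
      rw [← e1, ← e2, hss, h7]
  simpa using this

theorem ex_of_tail (i j l : Fin 3) (c : V3) (hj : ¬ (2 : Z2) ∣ c j)
    (htail : ∀ᶠ k in Filter.atTop, c ∉ Gev i j l k) : ∃ s : ℤ, ∀ k, ¬ Bad i j l c k s := by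
  classical
  obtain ⟨K, hK⟩ := Filter.eventually_atTop.1 htail
  set M := 2 ^ (2 * lev K) with hM
  have hMpos : 0 < M := by positivity
  let B : ℕ → Finset ℕ := fun k => (Finset.range M).filter (fun s : ℕ => Bad i j l c k s)
  have hB : ∀ k, k ≤ K → 8 * 4 ^ k * (B k).card ≤ M := by
    intro k hk
    have hdvd : 2 ^ (2 * lev k) ∣ M := pow_dvd_pow 2 (Nat.mul_le_mul_left 2 (lev_mono hk))
    have h1 : B k ⊆ (T k).biUnion fun t => (Finset.range M).filter
        (fun s : ℕ => (2 : Z2) ^ (2 * lev k) ∣ c i - ((s : ℤ) : Z2) * c j - (t i : Z2)) := by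
      intro s hs
      obtain ⟨hs1, t, ht, h2, _⟩ := Finset.mem_filter.1 hs
      exact Finset.mem_biUnion.2 ⟨t, ht, Finset.mem_filter.2 ⟨hs1, h2⟩⟩
    have h2 : (B k).card ≤ (T k).card * (M / 2 ^ (2 * lev k)) := by
      refine (Finset.card_le_card h1).trans (Finset.card_biUnion_le.trans ?_)
      refine (Finset.sum_le_card_nsmul _ _ (M / 2 ^ (2 * lev k)) ?_).trans (by rw [smul_eq_mul])
      intro t _
      refine count_class (2 * lev k) M hdvd (c i) (c j) (t i : Z2) hj _ ?_
      intro s hs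
      obtain ⟨hs1, hs2⟩ := Finset.mem_filter.1 hs
      exact ⟨Finset.mem_range.1 hs1, by exact_mod_cast hs2⟩
    calc 8 * 4 ^ k * (B k).card ≤ 8 * 4 ^ k * ((T k).card * (M / 2 ^ (2 * lev k))) :=
          Nat.mul_le_mul_left _ h2
      _ = (8 * 4 ^ k * (T k).card) * (M / 2 ^ (2 * lev k)) := by ring
      _ ≤ 2 ^ (2 * lev k) * (M / 2 ^ (2 * lev k)) := Nat.mul_le_mul_right _ (T_card k)
      _ ≤ M := Nat.mul_div_le _ _
  have hsum : ∑ k ∈ Finset.range (K + 1), (B k).card < M := by
    have hM' : (0 : ℝ) < (M : ℝ) := by exact_mod_cast hMpos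
    have h1 : ∀ k ∈ Finset.range (K + 1), ((B k).card : ℝ) ≤ (M : ℝ) / 8 * (1 / 4 : ℝ) ^ k := by
      intro k hk
      have h2 := hB k (by have := Finset.mem_range.1 hk; omega)
      have h3 : (8 : ℝ) * 4 ^ k * ((B k).card : ℝ) ≤ M := by exact_mod_cast h2
      rw [one_div, inv_pow]
      have h4 : (0 : ℝ) < 4 ^ k := by positivity
      rw [← div_eq_mul_inv, le_div_iff₀ h4]
      linarith
    have h2 : ∑ k ∈ Finset.range (K + 1), (1 / 4 : ℝ) ^ k ≤ 4 / 3 := by
      have hs : Summable (fun k : ℕ => (1 / 4 : ℝ) ^ k) :=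
        summable_geometric_of_lt_one (by norm_num) (by norm_num)
      have h3 := hs.sum_le_tsum (Finset.range (K + 1)) (fun k _ => by positivity)
      rw [tsum_geometric_of_lt_one (by norm_num) (by norm_num)] at h3
      refine h3.trans (by norm_num)
    have h3 : (∑ k ∈ Finset.range (K + 1), ((B k).card : ℝ)) ≤ (M : ℝ) / 8 * (4 / 3) := by
      refine (Finset.sum_le_sum h1).trans ?_
      rw [← Finset.mul_sum]
      exact mul_le_mul_of_nonneg_left h2 (by positivity)
    have h4 : (∑ k ∈ Finset.range (K + 1), ((B k).card : ℝ)) < M := by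
      refine h3.trans_lt ?_
      linarith
    exact_mod_cast h4
  have hcard : ((Finset.range (K + 1)).biUnion B).card < (Finset.range M).card := by
    rw [Finset.card_range]
    exact Finset.card_biUnion_le.trans_lt hsum
  obtain ⟨s, hs, hsn⟩ := Finset.exists_mem_notMem_of_card_lt_card hcard
  refine ⟨s, fun k hbad => ?_⟩
  by_cases hk : k ≤ K
  · apply hsn
    exact Finset.mem_biUnion.2 ⟨k, Finset.mem_range.2 (by omega), Finset.mem_filter.2 ⟨hs, hbad⟩⟩
  · push Not at hk
    obtain ⟨k', rfl⟩ : ∃ k', k = k' + 1 := ⟨k - 1, by omega⟩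
    have hk' : K ≤ k' := by omega
    apply hK k' hk'
    refine ⟨s, ?_, hbad⟩
    have h1 := Finset.mem_range.1 hs
    refine h1.trans_le ?_
    exact Nat.pow_le_pow_right (by norm_num) (Nat.mul_le_mul_left 2 (lev_mono hk'))

instance : Countable SL3 := by
  have hinj : Function.Injective (fun g : SL3 => fun (i j : Fin 3) => ent g i j) := by
    intro g h hgh
    exact ent_ext fun i j => congrFun (congrFun hgh i) j
  exact hinj.countable

theorem ae_cc {p : V3 → Prop} (h : ∀ᵐ c ∂nu, p c) : ∀ᵐ x ∂nu, ∀ g : SL3, p (cc x g) := by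
  rw [ae_all_iff]
  intro g
  exact (measurePreserving_act g⁻¹).quasiMeasurePreserving.ae h

theorem ae_good : ∀ᵐ x ∂nu, (∃ j, ¬ (2 : Z2) ∣ x j) → GoodX x := by
  have h1 : ∀ᵐ c ∂nu, ∀ i j l : Fin 3, i ≠ j → i ≠ l →
      ∀ᶠ k in Filter.atTop, c ∉ Gev i j l k := by
    rw [ae_all_iff]; intro i
    rw [ae_all_iff]; intro j
    rw [ae_all_iff]; intro l
    by_cases hij : i = j
    · exact Filter.Eventually.of_forall fun c h => absurd hij h
    by_cases hil : i = l
    · exact Filter.Eventually.of_forall fun c _ h => absurd hil h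
    filter_upwards [ae_Gev i j l hij hil] with c hc _ _
    exact hc
  filter_upwards [ae_cc h1, ae_cc ae_Bev] with x hx1 hx2 hprim
  refine ⟨hprim, ?_, ?_⟩
  · intro g i j l hij _ hil hj
    exact ex_of_tail i j l (cc x g) hj (hx1 g i j l hij hil)
  · intro g
    obtain ⟨n, hn⟩ := Filter.eventually_atTop.1 (hx2 g)
    refine ⟨n, fun k hk t ht hc => hn k hk ⟨t, ht, hc⟩⟩

/-- good vertices, on the space of vectors -/
def Zset (c : V3) : Prop :=
  ∃ m, (∀ k, ∀ t ∈ T k, ¬ (∀ a, a ≠ m → (2 : Z2) ^ (2 * lev k) ∣ c a - (t a : Z2))) ∧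
    ∃ a, a ≠ m ∧ ¬ (2 : Z2) ∣ c a

/-- components, on the space of vectors -/
inductive KK (n : ℕ) : V3 → Prop
  | base (c : V3) (h : Zset c) : KK n c
  | step (c : V3) (s : SL3) (hc : c ∉ Vset n) (hs : s ∈ S0) (h : KK n (act s⁻¹ c)) : KK n c

theorem KK_iff (x : V3) (hx : GoodX x) (n : ℕ) (g : SL3) :
    (level x hx).K n g ↔ KK n (cc x g) := by
  constructor
  · intro h
    induction h with
    | base g hg => exact KK.base _ hg
    | step g s hg hs h ih =>
      refine KK.step _ s hg hs ?_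
      rwa [← cc_mul]
  · intro h
    generalize hc : cc x g = c at h
    induction h generalizing g with
    | base c h =>
      subst hc
      exact Lev.K.base g h
    | step c s hc' hs h ih =>
      subst hc
      exact Lev.K.step g s hc' hs (ih (g * s) (cc_mul x g s))

/-- iterates -/
def KKi (n : ℕ) : ℕ → Set V3
  | 0 => {c | Zset c}
  | m + 1 => KKi n m ∪ {c | c ∉ Vset n ∧ ∃ s ∈ S0, act s⁻¹ c ∈ KKi n m}

theorem KK_iff_iter (n : ℕ) (c : V3) : KK n c ↔ ∃ m, c ∈ KKi n m := by
  constructor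
  · intro h
    induction h with
    | base c h => exact ⟨0, h⟩
    | step c s hc hs h ih =>
      obtain ⟨m, hm⟩ := ih
      exact ⟨m + 1, Or.inr ⟨hc, s, hs, hm⟩⟩
  · rintro ⟨m, hm⟩
    induction m generalizing c with
    | zero => exact KK.base c hm
    | succ m ih =>
      rcases hm with hm | ⟨hc, s, hs, hm⟩
      · exact ih c hm
      · exact KK.step c s hc hs (ih _ hm)

theorem measurableSet_Zset : MeasurableSet {c : V3 | Zset c} := by
  have : {c : V3 | Zset c} = ⋃ m : Fin 3,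
      ((⋂ k : ℕ, ⋂ t ∈ T k, (⋂ a : Fin 3, ⋂ (_ : a ≠ m),
        {c : V3 | (2 : Z2) ^ (2 * lev k) ∣ c a - (t a : Z2)})ᶜ) ∩
      (⋃ a : Fin 3, ⋃ (_ : a ≠ m), {c : V3 | (2 : Z2) ^ 1 ∣ c a}ᶜ)) := by
    ext c
    simp only [Set.mem_iUnion, Set.mem_iInter, Set.mem_inter_iff, Set.mem_compl_iff, pow_one]
    constructor
    · rintro ⟨m, h1, a, ha, h2⟩
      exact ⟨m, h1, a, ha, h2⟩
    · rintro ⟨m, h1, a, ha, h2⟩
      exact ⟨m, h1, a, ha, h2⟩
  rw [this]
  refine MeasurableSet.iUnion fun m => MeasurableSet.inter ?_ ?_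
  · refine MeasurableSet.iInter fun k => ?_
    refine Finset.measurableSet_biInter _ fun t _ => MeasurableSet.compl ?_
    refine MeasurableSet.iInter fun a => MeasurableSet.iInter fun _ => ?_
    exact measurableSet_dvd _ (fun c => c a - (t a : Z2)) (by fun_prop)
  · refine MeasurableSet.iUnion fun a => MeasurableSet.iUnion fun _ => MeasurableSet.compl ?_
    exact measurableSet_dvd 1 (fun c => c a) (by fun_prop)

theorem measurableSet_Vset (n : ℕ) : MeasurableSet (Vset n) := by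
  have : Vset n = ⋃ k : ℕ, ⋃ (_ : n ≤ k), ⋃ s ∈ Sf ^ (k - n), ⋃ t ∈ netF (lev k),
      ⋂ a : Fin 3, {c : V3 | (2 : Z2) ^ (2 * lev k) ∣ c a - ((act s t a : ℤ) : Z2)} := by
    ext c
    simp only [Set.mem_iUnion, Set.mem_iInter]
    constructor
    · rintro ⟨k, hk, s, hs, t, ht, hc⟩
      exact ⟨k, hk, s, hs, t, ht, hc⟩
    · rintro ⟨k, hk, s, hs, t, ht, hc⟩
      exact ⟨k, hk, s, hs, t, ht, hc⟩
  rw [this]
  refine MeasurableSet.iUnion fun k => MeasurableSet.iUnion fun _ => ?_
  refine Finset.measurableSet_biUnion _ fun s _ => Finset.measurableSet_biUnion _ fun t _ => ?_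
  refine MeasurableSet.iInter fun a => ?_
  exact measurableSet_dvd _ (fun c => c a - ((act s t a : ℤ) : Z2)) (by fun_prop)

theorem measurableSet_KKi (n m : ℕ) : MeasurableSet (KKi n m) := by
  induction m with
  | zero => exact measurableSet_Zset
  | succ m ih =>
    have : KKi n (m + 1) = KKi n m ∪ ((Vset n)ᶜ ∩ ⋃ s : SL3, ⋃ (_ : s ∈ S0),
        (fun c : V3 => act s⁻¹ c) ⁻¹' (KKi n m)) := by
      ext c
      simp only [KKi, Set.mem_union, Set.mem_inter_iff, Set.mem_iUnion, Set.mem_compl_iff,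
        Set.mem_preimage]
      constructor
      · rintro (h | ⟨h1, s, hs, h2⟩)
        · exact Or.inl h
        · exact Or.inr ⟨h1, s, hs, h2⟩
      · rintro (h | ⟨h1, s, hs, h2⟩)
        · exact Or.inl h
        · exact Or.inr ⟨h1, s, hs, h2⟩
    rw [this]
    refine ih.union ((measurableSet_Vset n).compl.inter ?_)
    exact MeasurableSet.iUnion fun s => MeasurableSet.iUnion fun _ =>
      (continuous_act s⁻¹).measurable ih

theorem measurableSet_KK (n : ℕ) : MeasurableSet {c : V3 | KK n c} := by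
  have : {c : V3 | KK n c} = ⋃ m, KKi n m := by
    ext c
    rw [Set.mem_iUnion]
    exact KK_iff_iter n c
  rw [this]
  exact MeasurableSet.iUnion fun m => measurableSet_KKi n m

/-- the layers -/
def lay (n : ℕ) : Set V3 := {c | KK n c ∧ ∀ m, m < n → ¬ KK m c}

theorem measurableSet_lay (n : ℕ) : MeasurableSet (lay n) := by
  have : lay n = {c : V3 | KK n c} ∩ ⋂ m : ℕ, ⋂ (_ : m < n), {c : V3 | KK m c}ᶜ := by
    ext c
    simp only [lay, Set.mem_inter_iff, Set.mem_iInter, Set.mem_compl_iff]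
    rfl
  rw [this]
  exact (measurableSet_KK n).inter (MeasurableSet.iInter fun m => MeasurableSet.iInter fun _ =>
    (measurableSet_KK m).compl)

theorem iterate_act (m : ℕ) (c : V3) : (fun c : V3 => act (X 0 1 1) c)^[m] c = act (X 0 1 m) c := by
  induction m generalizing c with
  | zero => simp [X_zero, act_one]
  | succ m ih =>
    rw [Function.iterate_succ_apply, ih, ← act_mul, ← X_add]
    push_cast
    rfl

theorem ae_rec : ∀ᵐ x ∂nu, ∀ g : SL3, ∀ n, cc x g ∈ lay n →
    ∃ᶠ m : ℕ in Filter.atTop, act (X 0 1 m) (cc x g) ∈ lay n := by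
  refine ae_cc (p := fun c => ∀ n, c ∈ lay n →
    ∃ᶠ m : ℕ in Filter.atTop, act (X 0 1 m) c ∈ lay n) ?_
  rw [ae_all_iff]
  intro n
  have h := (measurePreserving_act (X 0 1 1)).conservative.ae_mem_imp_frequently_image_mem
    (measurableSet_lay n).nullMeasurableSet
  filter_upwards [h] with c hc hcn
  have := hc hcn
  refine this.mono fun m hm => ?_
  rwa [iterate_act] at hm

end

end Pool.Agent.N659.IRP
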