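import Mathlib
import Pool.Agent.N659.IRP.AE

set_option autoImplicit false

/-!
Assembly: the random partition, its invariance and its almost sure properties.
-/

namespace Pool.Agent.N659.IRP

open MeasureTheory
open scoped Pointwise

noncomputable section

/-- the set of primitive vectors -/
def prim : Set V3 := {c | ∃ j, ¬ (2 : Z2) ∣ c j}

theorem measurableSet_prim : MeasurableSet prim := by
  have : prim = ⋃ j : Fin 3, {c : V3 | (2 : Z2) ^ 1 ∣ c j}ᶜ := by
    ext c
    simp only [prim, Set.mem_iUnion, Set.mem_compl_iff, pow_one]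
    rfl
  rw [this]
  exact MeasurableSet.iUnion fun j => (measurableSet_dvd 1 (fun c => c j) (by fun_prop)).compl

theorem two_not_dvd_one : ¬ (2 : Z2) ∣ 1 := by
  intro h
  have h2 : (2 : Z2) ^ 1 ∣ ((1 : ℤ) : Z2) := by
    rw [pow_one, Int.cast_one]; exact h
  have h3 : (2 : ℤ) ^ 1 ∣ 1 := dvd_int_of_cast h2
  revert h3
  decide

theorem t4 (c d : V3) (hd : d 0 = 1) (hc : c ∉ prim) (hc' : c + d ∉ prim) : False := by
  have e1 : (2 : Z2) ∣ c 0 := by
    by_contra h
    exact hc ⟨0, h⟩
  have e2 : (2 : Z2) ∣ (c + d) 0 := by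
    by_contra h
    exact hc' ⟨0, h⟩
  rw [Pi.add_apply, hd] at e2
  exact two_not_dvd_one ((dvd_add_right e1).1 e2)

theorem prim_ne_zero : nu prim ≠ 0 := by
  intro h0
  obtain ⟨d, hd⟩ : ∃ d : V3, d 0 = 1 := ⟨fun _ => 1, rfl⟩
  have h2 : nu ((fun c => c + d) ⁻¹' prim) = nu prim := measure_preimage_add_right nu d prim
  have h3 : nu Set.univ ≤ nu prim + nu ((fun c => c + d) ⁻¹' prim) := by
    refine (measure_mono ?_).trans (measure_union_le _ _)
    intro c _
    by_contra hcon
    rw [Set.mem_union, not_or] at hcon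
    exact t4 c d hd hcon.1 hcon.2
  rw [h2, h0, measure_univ, add_zero] at h3
  exact absurd h3 (by norm_num)

/-- the sample measure -/
def P0 : Measure V3 := ProbabilityTheory.cond nu prim

instance : IsProbabilityMeasure P0 := ProbabilityTheory.cond_isProbabilityMeasure prim_ne_zero

theorem prim_act (g : SL3) (c : V3) : act g c ∈ prim ↔ c ∈ prim := by
  constructor
  · intro h
    by_contra hc
    obtain ⟨j, hj⟩ := h
    apply hj
    refine act_dvd g c 2 ?_ j
    intro k
    by_contra hk
    exact hc ⟨k, hk⟩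
  · intro h
    by_contra hc
    obtain ⟨j, hj⟩ := h
    apply hj
    have e : c = act g⁻¹ (act g c) := by rw [← act_mul, inv_mul_cancel, act_one]
    rw [e]
    refine act_dvd g⁻¹ _ 2 ?_ j
    intro k
    by_contra hk
    exact hc ⟨k, hk⟩

theorem map_act_P0 (g : SL3) : P0.map (fun c : V3 => act g c) = P0 := by
  unfold P0 ProbabilityTheory.cond
  rw [Measure.map_smul]
  congr 1
  have h := (measurePreserving_act g).restrict_preimage measurableSet_prim
  have h2 : (fun c : V3 => act g c) ⁻¹' prim = prim := by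
    ext c
    exact prim_act g c
  rw [h2] at h
  exact h.map_eq

open Classical in
/-- the random partition -/
def Rmap (x : V3) : SL3 → SL3 → Bool := fun g h =>
  decide (∀ n, KK n (cc x g) ↔ KK n (cc x h))

theorem Rmap_iff (x : V3) (g h : SL3) :
    Rmap x g h = true ↔ ∀ n, (KK n (cc x g) ↔ KK n (cc x h)) := by
  simp [Rmap]

theorem measurable_Rmap : Measurable Rmap := by
  rw [measurable_pi_iff]; intro g
  rw [measurable_pi_iff]; intro h
  refine measurable_to_bool ?_
  have : (fun x => Rmap x g h) ⁻¹' {true} =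
      ⋂ n : ℕ, (((fun x : V3 => act g⁻¹ x) ⁻¹' {c | KK n c} ∩ (fun x : V3 => act h⁻¹ x) ⁻¹' {c | KK n c}) ∪
        (((fun x : V3 => act g⁻¹ x) ⁻¹' {c | KK n c})ᶜ ∩
          ((fun x : V3 => act h⁻¹ x) ⁻¹' {c | KK n c})ᶜ)) := by
    ext x
    rw [Set.mem_preimage, Set.mem_singleton_iff, Rmap_iff, Set.mem_iInter]
    refine forall_congr' fun n => ?_
    show (KK n (cc x g) ↔ KK n (cc x h)) ↔
      ((KK n (cc x g) ∧ KK n (cc x h)) ∨ (¬ KK n (cc x g) ∧ ¬ KK n (cc x h)))
    tauto
  rw [this]
  refine MeasurableSet.iInter fun n => ?_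
  have hg := (continuous_act g⁻¹).measurable (measurableSet_KK n)
  have hh := (continuous_act h⁻¹).measurable (measurableSet_KK n)
  exact (hg.inter hh).union (hg.compl.inter hh.compl)

theorem Rmap_act (x : V3) (γ g h : SL3) : Rmap (act γ x) g h = Rmap x (γ⁻¹ * g) (γ⁻¹ * h) := by
  have e : ∀ g, cc (act γ x) g = cc x (γ⁻¹ * g) := by
    intro g
    unfold cc
    rw [← act_mul, mul_inv_rev, inv_inv]
  rw [Bool.eq_iff_iff, Rmap_iff, Rmap_iff, e, e]

/-- the law of the random partition -/
def muR : Measure (SL3 → SL3 → Bool) := P0.map Rmap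

instance : IsProbabilityMeasure muR :=
  Measure.isProbabilityMeasure_map measurable_Rmap.aemeasurable

theorem muR_inv (γ : SL3) : muR.map (fun r g h => r (γ⁻¹ * g) (γ⁻¹ * h)) = muR := by
  have hm : Measurable (fun (r : SL3 → SL3 → Bool) (g h : SL3) => r (γ⁻¹ * g) (γ⁻¹ * h)) := by
    rw [measurable_pi_iff]; intro g
    rw [measurable_pi_iff]; intro h
    exact (measurable_pi_apply (γ⁻¹ * h)).comp (measurable_pi_apply (γ⁻¹ * g))
  unfold muR
  rw [Measure.map_map hm measurable_Rmap]
  have : (fun (r : SL3 → SL3 → Bool) (g h : SL3) => r (γ⁻¹ * g) (γ⁻¹ * h)) ∘ Rmap =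
      Rmap ∘ (fun c : V3 => act γ c) := by
    funext x g h
    exact (Rmap_act x γ g h).symm
  rw [this, ← Measure.map_map measurable_Rmap (continuous_act γ).measurable, map_act_P0]

/-- step relation -/
def stepR (a b : SL3) : Prop := a⁻¹ * b ∈ Sf ∨ b⁻¹ * a ∈ Sf

/-- paths of given length inside a part -/
def pathIn (r : SL3 → SL3 → Bool) (g : SL3) : ℕ → SL3 → SL3 → Prop
  | 0, a, b => a = b
  | n + 1, a, b => ∃ c, r g c = true ∧ stepR a c ∧ pathIn r g n c b

/-- measurable form of the required properties -/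
def Qprop (r : SL3 → SL3 → Bool) : Prop :=
  (∀ g, r g g = true) ∧ (∀ g h, r g h = true → r h g = true) ∧
  (∀ g h k, r g h = true → r h k = true → r g k = true) ∧
  (∀ A : Finset SL3, ∃ g, ∀ a : SL3, a ∈ A → ¬ r a g = true) ∧
  (∀ (g : SL3) (A : Finset SL3), ∃ h, h ∉ A ∧ r g h = true) ∧
  (∀ g a b, r g a = true → r g b = true → ∃ n, pathIn r g n a b) ∧
  (∀ g, ∃ A : Finset SL3, ∀ x y, r g x = true → stepR x y → ∃ a : SL3, a ∈ A ∧ r a y = true)

theorem meas_base (g h : SL3) : Measurable (fun r : SL3 → SL3 → Bool => (r g h = true)) := by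
  rw [← measurableSet_setOfPred]
  have h1 : Measurable (fun r : SL3 → SL3 → Bool => r g h) :=
    (measurable_pi_apply h).comp (measurable_pi_apply g)
  exact h1 (measurableSet_singleton true)

theorem meas_path (g : SL3) (n : ℕ) (a b : SL3) :
    Measurable (fun r : SL3 → SL3 → Bool => pathIn r g n a b) := by
  induction n generalizing a with
  | zero => exact measurable_const
  | succ n ih =>
    refine Measurable.exists fun c => ?_
    exact (meas_base g c).and (measurable_const.and (ih c))

theorem meas_Q : MeasurableSet {r | Qprop r} := by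
  rw [measurableSet_setOfPred]
  refine (Measurable.forall fun g => meas_base g g).and ?_
  refine (Measurable.forall fun g => Measurable.forall fun h =>
    (meas_base g h).imp (meas_base h g)).and ?_
  refine (Measurable.forall fun g => Measurable.forall fun h => Measurable.forall fun k =>
    (meas_base g h).imp ((meas_base h k).imp (meas_base g k))).and ?_
  refine (Measurable.forall fun A => Measurable.exists fun g => Measurable.forall fun a =>
    measurable_const.imp (meas_base a g).not).and ?_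
  refine (Measurable.forall fun g => Measurable.forall fun A => Measurable.exists fun h =>
    measurable_const.and (meas_base g h)).and ?_
  refine (Measurable.forall fun g => Measurable.forall fun a => Measurable.forall fun b =>
    (meas_base g a).imp ((meas_base g b).imp (Measurable.exists fun n => meas_path g n a b))).and ?_
  exact Measurable.forall fun g => Measurable.exists fun A => Measurable.forall fun x =>
    Measurable.forall fun y => (meas_base g x).imp (measurable_const.imp
      (Measurable.exists fun a => measurable_const.and (meas_base a y)))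

/-- deterministic statement -/
theorem Q_of_good (x : V3) (hx : GoodX x)
    (hrec : ∀ g : SL3, ∀ n, cc x g ∈ lay n →
      ∃ᶠ m : ℕ in Filter.atTop, act (X 0 1 m) (cc x g) ∈ lay n) : Qprop (Rmap x) := by
  classical
  set L := level x hx with hL
  have hrel : ∀ g h, Rmap x g h = true ↔ L.rel g h := by
    intro g h
    rw [Rmap_iff]
    refine forall_congr' fun n => ?_
    rw [KK_iff x hx n g, KK_iff x hx n h]
  have hS : ∀ s, s ∈ L.S ↔ s ∈ Sf := fun s => mem_Sf.symm
  refine ⟨?_, ?_, ?_, ?_, ?_, ?_, ?_⟩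
  · intro g
    rw [hrel]
    exact fun n => Iff.rfl
  · intro g h hgh
    rw [hrel] at hgh ⊢
    exact fun n => (hgh n).symm
  · intro g h k h1 h2
    rw [hrel] at h1 h2 ⊢
    exact fun n => (h1 n).trans (h2 n)
  · intro A
    obtain ⟨g, hg⟩ := L.rel_many A
    exact ⟨g, fun a ha h => hg a ha ((hrel a g).1 h)⟩
  · intro g A
    -- minimal level of g
    have hex := L.K_all g
    have h1 : cc x g ∈ lay (Nat.find hex) := by
      refine ⟨(KK_iff x hx _ g).1 (Nat.find_spec hex), ?_⟩
      intro m hm h
      exact Nat.find_min hex hm ((KK_iff x hx m g).2 h)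
    have h2 := hrec g _ h1
    rw [Filter.frequently_atTop] at h2
    -- infinitely many m
    have hinf : {m : ℕ | act (X 0 1 m) (cc x g) ∈ lay (Nat.find hex)}.Infinite := by
      rw [Set.infinite_iff_exists_gt] 
      intro a
      obtain ⟨b, hb, hb'⟩ := h2 (a + 1)
      exact ⟨b, hb', by omega⟩
    have hinj : Function.Injective (fun m : ℕ => g * X 0 1 (-(m : ℤ))) := by
      intro m m' h
      have h3 : X 0 1 (-(m : ℤ)) = X 0 1 (-(m' : ℤ)) := mul_left_cancel h
      have h4 := congrArg (fun y => ent y 0 1) h3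
      simp only [ent_X 0 1 (by decide)] at h4
      simpa using h4
    obtain ⟨m, hm, hmA⟩ : ∃ m ∈ {m : ℕ | act (X 0 1 m) (cc x g) ∈ lay (Nat.find hex)},
        g * X 0 1 (-(m : ℤ)) ∉ A := by
      by_contra hcon
      push Not at hcon
      have hfin : ((fun m : ℕ => g * X 0 1 (-(m : ℤ))) ''
          {m : ℕ | act (X 0 1 m) (cc x g) ∈ lay (Nat.find hex)}).Finite := by
        refine Set.Finite.subset A.finite_toSet ?_
        rintro _ ⟨m, hm, rfl⟩
        exact hcon m hm
      exact (hinf.image hinj.injOn) hfin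
    refine ⟨g * X 0 1 (-(m : ℤ)), hmA, ?_⟩
    rw [hrel]
    have e : cc x (g * X 0 1 (-(m : ℤ))) = act (X 0 1 m) (cc x g) := by
      rw [cc_mul, X_inv, neg_neg]
    have h3 : cc x (g * X 0 1 (-(m : ℤ))) ∈ lay (Nat.find hex) := by rw [e]; exact hm
    intro n
    rw [KK_iff x hx n g, KK_iff x hx n (g * X 0 1 (-(m : ℤ)))]
    by_cases hn : n < Nat.find hex
    · exact ⟨fun h => absurd h (h1.2 n hn), fun h => absurd h (h3.2 n hn)⟩
    · push Not at hn
      have a1 : KK n (cc x g) := by
        rw [← KK_iff x hx n g]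
        exact L.K_mono' hn (Nat.find_spec hex)
      have a2 : KK n (cc x (g * X 0 1 (-(m : ℤ)))) := by
        rw [← KK_iff x hx]
        exact L.K_mono' hn ((KK_iff x hx _ _).2 h3.1)
      exact ⟨fun _ => a2, fun _ => a1⟩
  · intro g a b ha hb
    rw [hrel] at ha hb
    have hab : L.rel a b := fun n => (ha n).symm.trans (hb n)
    have hpath := L.rel_conn a b hab
    have hset : {h | L.rel a h} = {h | L.rel g h} := by
      ext h
      exact ⟨fun h' n => (ha n).trans (h' n), fun h' n => (ha n).symm.trans (h' n)⟩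
    rw [hset] at hpath
    induction hpath using Relation.ReflTransGen.head_induction_on with
    | refl => exact ⟨0, rfl⟩
    | head hac hcb ih =>
      rename_i a' c'
      have hc' : L.rel g c' := hac.2.1
      obtain ⟨n, hn⟩ := ih hc' (fun n => (hc' n).symm.trans (hb n)) (by
        ext h
        exact ⟨fun h' n => (hc' n).trans (h' n), fun h' n => (hc' n).symm.trans (h' n)⟩)
      exact ⟨n + 1, c', (hrel g c').2 hc', Or.inl ((hS _).1 hac.2.2), hn⟩
  · intro g
    obtain ⟨A, hA⟩ := L.rel_finite_adj g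
    refine ⟨A, fun x' y hx' hxy => ?_⟩
    rw [hrel] at hx'
    have hs : x'⁻¹ * y ∈ L.S := by
      rw [hS]
      rcases hxy with h | h
      · exact h
      · have := Sf_inv h
        simpa using this
    obtain ⟨a, ha, har⟩ := hA x' y hx' hs
    exact ⟨a, ha, (hrel a y).2 har⟩

theorem ae_Q : ∀ᵐ r ∂muR, Qprop r := by
  unfold muR
  rw [ae_map_iff measurable_Rmap.aemeasurable meas_Q]
  have h1 : ∀ᵐ x ∂P0, x ∈ prim := ProbabilityTheory.ae_cond_mem measurableSet_prim
  have hac : P0 ≪ nu := ProbabilityTheory.cond_absolutelyContinuous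
  have h2 := hac.ae_le ae_good
  have h3 := hac.ae_le ae_rec
  filter_upwards [h1, h2, h3] with x hx1 hx2 hx3
  exact Q_of_good x (hx2 hx1) hx3

/-- the graph-theoretic form -/
theorem final_of_Q (r : SL3 → SL3 → Bool) (h : Qprop r) :
    Equivalence (fun g h => r g h = true) ∧
    (Set.range (fun g : SL3 => {h : SL3 | r g h = true})).Infinite ∧
    (∀ g : SL3, {h : SL3 | r g h = true}.Infinite) ∧
    (∀ g : SL3, ((SimpleGraph.fromRel (fun a b : SL3 => a⁻¹ * b ∈ Sf)).induce
      {h : SL3 | r g h = true}).Connected) ∧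
    (∀ g : SL3, ((fun y : SL3 => {h : SL3 | r y h = true}) ''
      {y : SL3 | ∃ x : SL3, r g x = true ∧
        (SimpleGraph.fromRel (fun a b : SL3 => a⁻¹ * b ∈ Sf)).Adj x y}).Finite) := by
  classical
  obtain ⟨q1, q2, q3, q4, q5, q6, q7⟩ := h
  have hclass : ∀ a b, r a b = true → {h : SL3 | r a h = true} = {h : SL3 | r b h = true} := by
    intro a b hab
    ext h
    exact ⟨fun h' => q3 b a h (q2 a b hab) h', fun h' => q3 a b h hab h'⟩
  refine ⟨⟨q1, fun {a b} => q2 a b, fun {a b c} => q3 a b c⟩, ?_, ?_, ?_, ?_⟩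
  · intro hfin
    -- choose representatives
    have hsurj : ∀ C ∈ Set.range (fun g : SL3 => {h : SL3 | r g h = true}), ∃ g : SL3,
        {h : SL3 | r g h = true} = C := by
      rintro C ⟨g, rfl⟩
      exact ⟨g, rfl⟩
    choose! rep hrep using hsurj
    obtain ⟨g, hg⟩ := q4 (hfin.toFinset.image rep)
    have hmem : {h : SL3 | r g h = true} ∈
        Set.range (fun g : SL3 => {h : SL3 | r g h = true}) := ⟨g, rfl⟩
    have h1 := hg (rep {h : SL3 | r g h = true}) (Finset.mem_image.2 ⟨_, hfin.mem_toFinset.2 hmem, rfl⟩)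
    apply h1
    have h2 := hrep _ hmem
    have h3 : g ∈ {h : SL3 | r g h = true} := q1 g
    rw [← h2] at h3
    exact h3
  · intro g hfin
    obtain ⟨h, hh, hr⟩ := q5 g hfin.toFinset
    exact hh (hfin.mem_toFinset.2 hr)
  · intro g
    have hreach : ∀ n a b (ha : r g a = true) (hb : r g b = true), pathIn r g n a b →
        ((SimpleGraph.fromRel (fun a b : SL3 => a⁻¹ * b ∈ Sf)).induce
          {h : SL3 | r g h = true}).Reachable ⟨a, ha⟩ ⟨b, hb⟩ := by
      intro n
      induction n with
      | zero =>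
        intro a b ha hb hp
        have : a = b := hp
        subst this
        exact SimpleGraph.Reachable.refl _
      | succ n ih =>
        rintro a b ha hb ⟨c, hc, hac, hp⟩
        have h1 := ih c b hc hb hp
        by_cases hne : a = c
        · subst hne
          exact h1
        · refine SimpleGraph.Reachable.trans (SimpleGraph.Adj.reachable ?_) h1
          rw [SimpleGraph.induce_adj, SimpleGraph.fromRel_adj]
          exact ⟨hne, hac⟩
    rw [SimpleGraph.connected_iff]
    refine ⟨?_, ⟨⟨g, q1 g⟩⟩⟩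
    rintro ⟨a, ha⟩ ⟨b, hb⟩
    obtain ⟨n, hn⟩ := q6 g a b ha hb
    exact hreach n a b ha hb hn
  · intro g
    obtain ⟨A, hA⟩ := q7 g
    refine Set.Finite.subset ((A.finite_toSet).image (fun y : SL3 => {h : SL3 | r y h = true})) ?_
    rintro _ ⟨y, ⟨x, hx, hxy⟩, rfl⟩
    rw [SimpleGraph.fromRel_adj] at hxy
    obtain ⟨a, ha, har⟩ := hA x y hx hxy.2
    exact ⟨a, ha, hclass a y har⟩

theorem closure_Sf : Subgroup.closure (Sf : Set SL3) = ⊤ := by
  rw [eq_top_iff, ← gen_top]
  refine Subgroup.closure_mono ?_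
  rintro _ ⟨i, j, hij, rfl⟩
  exact S0_sub_Sf (S0_X i j hij)

theorem main : ∃ S : Finset SL3,
      Subgroup.closure (S : Set SL3) = ⊤ ∧
      ∃ μ : MeasureTheory.Measure (SL3 → SL3 → Bool),
        MeasureTheory.IsProbabilityMeasure μ ∧
        (∀ γ : SL3, μ.map (fun r g h => r (γ⁻¹ * g) (γ⁻¹ * h)) = μ) ∧
        ∀ᵐ r ∂μ,
          Equivalence (fun g h => r g h = true) ∧
          (Set.range (fun g : SL3 => {h : SL3 | r g h = true})).Infinite ∧
          (∀ g : SL3, {h : SL3 | r g h = true}.Infinite) ∧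
          (∀ g : SL3, ((SimpleGraph.fromRel (fun a b : SL3 => a⁻¹ * b ∈ S)).induce
            {h : SL3 | r g h = true}).Connected) ∧
          (∀ g : SL3, ((fun y : SL3 => {h : SL3 | r y h = true}) ''
            {y : SL3 | ∃ x : SL3, r g x = true ∧
              (SimpleGraph.fromRel (fun a b : SL3 => a⁻¹ * b ∈ S)).Adj x y}).Finite) := by
  refine ⟨Sf, closure_Sf, muR, inferInstance, muR_inv, ?_⟩
  filter_upwards [ae_Q] with r hr
  exact final_of_Q r hr

end

end Pool.Agent.N659.IRP
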